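import Pool.Agent.Lib.MP_7561b1_an.SecondMoment

/-!
# Approximation of measurable subsets of `X × Y` by sets `{(x,y) : y ∈ Q(p(x))}`, `p` finite-valued
-/

open MeasureTheory Set Filter
open scoped Topology ENNReal symmDiff

namespace Pool.Agent.Lib.MP_7561b1_an

variable {X Y : Type*} [MeasurableSpace X] [MeasurableSpace Y]

/-- The set `{(x,y) : y ∈ Q(p(x))}`. -/
def fib {ι : Type*} (p : X → ι) (Q : ι → Set Y) : Set (X × Y) := {z | z.2 ∈ Q (p z.1)}

omit [MeasurableSpace X] [MeasurableSpace Y] in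
theorem mem_fib {ι : Type*} {p : X → ι} {Q : ι → Set Y} {z : X × Y} :
    z ∈ fib p Q ↔ z.2 ∈ Q (p z.1) := Iff.rfl

theorem measurableSet_fib {ι : Type*} [Finite ι] {p : X → ι} {Q : ι → Set Y}
    (hp : ∀ m, MeasurableSet (p ⁻¹' {m})) (hQ : ∀ m, MeasurableSet (Q m)) :
    MeasurableSet (fib p Q) := by
  have : fib p Q = ⋃ m, (p ⁻¹' {m}) ×ˢ Q m := by
    ext z
    simp [mem_fib]
  rw [this]
  exact MeasurableSet.iUnion fun m => (hp m).prod (hQ m)

/-- The algebra of the sets `fib p Q`. -/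
def fibAlg (X Y : Type*) [MeasurableSpace X] [MeasurableSpace Y] : Set (Set (X × Y)) :=
  {E | ∃ (ι : Type) (_ : Fintype ι) (p : X → ι) (Q : ι → Set Y),
    (∀ m, MeasurableSet (p ⁻¹' {m})) ∧ (∀ m, MeasurableSet (Q m)) ∧ E = fib p Q}

theorem isSetAlgebra_fibAlg : IsSetAlgebra (fibAlg X Y) where
  empty_mem := ⟨Unit, inferInstance, fun _ => (), fun _ => ∅,
    fun m => by simp, fun _ => MeasurableSet.empty, by ext z; simp [mem_fib]⟩
  compl_mem := by
    rintro _ ⟨ι, hι, p, Q, hp, hQ, rfl⟩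
    exact ⟨ι, hι, p, fun m => (Q m)ᶜ, hp, fun m => (hQ m).compl, by ext z; simp [mem_fib]⟩
  union_mem := by
    rintro _ _ ⟨ι, hι, p, Q, hp, hQ, rfl⟩ ⟨ι', hι', p', Q', hp', hQ', rfl⟩
    refine ⟨ι × ι', inferInstance, fun x => (p x, p' x), fun m => Q m.1 ∪ Q' m.2, ?_,
      fun m => (hQ m.1).union (hQ' m.2), by ext z; simp [mem_fib]⟩
    rintro ⟨m, m'⟩
    have : (fun x => (p x, p' x)) ⁻¹' {(m, m')} = p ⁻¹' {m} ∩ p' ⁻¹' {m'} := by
      ext x; simp
    rw [this]
    exact (hp m).inter (hp' m')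

theorem generateFrom_fibAlg :
    (Prod.instMeasurableSpace : MeasurableSpace (X × Y)) =
      MeasurableSpace.generateFrom (fibAlg X Y) := by
  classical
  apply le_antisymm
  · rw [← generateFrom_prod]
    apply MeasurableSpace.generateFrom_mono
    rintro _ ⟨s, hs, t, ht, rfl⟩
    refine ⟨Bool, inferInstance, fun x => decide (x ∈ s), fun b => if b = true then t else ∅,
      ?_, ?_, ?_⟩
    · intro b
      cases b
      · have : (fun x => decide (x ∈ s)) ⁻¹' {false} = sᶜ := by ext x; simp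
        rw [this]; exact hs.compl
      · have : (fun x => decide (x ∈ s)) ⁻¹' {true} = s := by ext x; simp
        rw [this]; exact hs
    · intro b
      cases b
      · simp
      · simpa using ht
    · ext z
      by_cases hz : z.1 ∈ s <;> simp [mem_fib, hz]
  · apply MeasurableSpace.generateFrom_le
    rintro _ ⟨ι, hι, p, Q, hp, hQ, rfl⟩
    exact measurableSet_fib hp hQ

/-- Simultaneous approximation of finitely many measurable sets. -/
theorem exists_fib_approx (m : Measure (X × Y)) [IsFiniteMeasure m] {κ : Type} [Fintype κ]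
    (E : κ → Set (X × Y)) (hE : ∀ i, MeasurableSet (E i)) {ε : ℝ} (hε : 0 < ε) :
    ∃ (ι : Type) (_ : Fintype ι) (p : X → ι) (Q : κ → ι → Set Y),
      (∀ a, MeasurableSet (p ⁻¹' {a})) ∧ (∀ i a, MeasurableSet (Q i a)) ∧
      ∀ i, m.real (E i ∆ fib p (Q i)) < ε := by
  have hdense := Measure.MeasureDense.of_generateFrom_isSetAlgebra_finite m
    (isSetAlgebra_fibAlg (X := X) (Y := Y)) generateFrom_fibAlg
  have h1 : ∀ i, ∃ (ι : Type) (_ : Fintype ι) (p : X → ι) (Q : ι → Set Y),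
      (∀ a, MeasurableSet (p ⁻¹' {a})) ∧ (∀ a, MeasurableSet (Q a)) ∧
      m.real (E i ∆ fib p Q) < ε := by
    intro i
    obtain ⟨t, ⟨ι, hι, p, Q, hp, hQ, rfl⟩, ht⟩ :=
      hdense.approx (E i) (hE i) (measure_ne_top _ _) ε hε
    exact ⟨ι, hι, p, Q, hp, hQ, (ENNReal.lt_ofReal_iff_toReal_lt (measure_ne_top _ _)).1 ht⟩
  classical
  choose ι hι p Q hp hQ hlt using h1
  refine ⟨∀ i, ι i, inferInstance, fun x i => p i x, fun i a => Q i (a i), ?_, ?_, ?_⟩
  · intro a
    have : (fun x i => p i x) ⁻¹' {a} = ⋂ i, p i ⁻¹' {a i} := by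
      ext x; simp [funext_iff]
    rw [this]
    exact MeasurableSet.iInter fun i => hp i _
  · intro i a; exact hQ i _
  · intro i; exact hlt i

end Pool.Agent.Lib.MP_7561b1_an
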