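import Pool.Agent.Lib.MP_7561b1_an.Ops

/-!
# General estimates
-/

open MeasureTheory Set Filter
open scoped Topology ENNReal symmDiff

namespace Pool.Agent.Lib.MP_7561b1_an

theorem abs_prod_sub_prod_le {κ : Type*} [DecidableEq κ] (s : Finset κ) (b c : κ → ℝ)
    (hb0 : ∀ i ∈ s, 0 ≤ b i) (hb1 : ∀ i ∈ s, b i ≤ 1) (hc0 : ∀ i ∈ s, 0 ≤ c i)
    (hc1 : ∀ i ∈ s, c i ≤ 1) : |∏ i ∈ s, b i - ∏ i ∈ s, c i| ≤ ∑ i ∈ s, |b i - c i| := by
  induction s using Finset.induction_on with
  | empty => simp
  | insert a s ha ih =>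
    rw [Finset.prod_insert ha, Finset.prod_insert ha, Finset.sum_insert ha]
    have ih' := ih (fun i hi => hb0 i (Finset.mem_insert_of_mem hi))
      (fun i hi => hb1 i (Finset.mem_insert_of_mem hi))
      (fun i hi => hc0 i (Finset.mem_insert_of_mem hi))
      (fun i hi => hc1 i (Finset.mem_insert_of_mem hi))
    have hB0 : 0 ≤ ∏ i ∈ s, b i :=
      Finset.prod_nonneg fun i hi => hb0 i (Finset.mem_insert_of_mem hi)
    have hB1 : ∏ i ∈ s, b i ≤ 1 :=
      Finset.prod_le_one (fun i hi => hb0 i (Finset.mem_insert_of_mem hi))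
        fun i hi => hb1 i (Finset.mem_insert_of_mem hi)
    have hca0 := hc0 a (Finset.mem_insert_self a s)
    have hca1 := hc1 a (Finset.mem_insert_self a s)
    have he : b a * ∏ i ∈ s, b i - c a * ∏ i ∈ s, c i =
        (b a - c a) * ∏ i ∈ s, b i + c a * (∏ i ∈ s, b i - ∏ i ∈ s, c i) := by ring
    rw [he]
    calc |(b a - c a) * ∏ i ∈ s, b i + c a * (∏ i ∈ s, b i - ∏ i ∈ s, c i)|
        ≤ |(b a - c a) * ∏ i ∈ s, b i| + |c a * (∏ i ∈ s, b i - ∏ i ∈ s, c i)| := abs_add_le _ _
      _ = |b a - c a| * ∏ i ∈ s, b i + c a * |∏ i ∈ s, b i - ∏ i ∈ s, c i| := by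
          rw [abs_mul, abs_mul, abs_of_nonneg hB0, abs_of_nonneg hca0]
      _ ≤ |b a - c a| * 1 + 1 * |∏ i ∈ s, b i - ∏ i ∈ s, c i| := by gcongr
      _ ≤ |b a - c a| + ∑ i ∈ s, |b i - c i| := by rw [mul_one, one_mul]; gcongr

section

variable {Z : Type*} [MeasurableSpace Z] (m : Measure Z)

theorem measureReal_le_add_symmDiff [IsFiniteMeasure m] (A B : Set Z) :
    m.real A ≤ m.real B + m.real (A ∆ B) := by
  calc m.real A ≤ m.real (B ∪ A ∆ B) := by
        refine measureReal_mono ?_ (measure_ne_top _ _)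
        intro z hz
        by_cases hB : z ∈ B
        · exact Or.inl hB
        · exact Or.inr (Or.inl ⟨hz, hB⟩)
    _ ≤ _ := measureReal_union_le _ _

theorem abs_measureReal_sub_le [IsFiniteMeasure m] (A B : Set Z) :
    |m.real A - m.real B| ≤ m.real (A ∆ B) := by
  rw [abs_le]
  constructor
  · have := measureReal_le_add_symmDiff m B A
    rw [symmDiff_comm] at this
    linarith
  · have := measureReal_le_add_symmDiff m A B
    linarith

theorem abs_measureReal_iInter_sub_le [IsFiniteMeasure m] {κ : Type*} [Fintype κ]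
    (E F : κ → Set Z) :
    |m.real (⋂ i, E i) - m.real (⋂ i, F i)| ≤ ∑ i, m.real (E i ∆ F i) := by
  refine (abs_measureReal_sub_le m _ _).trans ?_
  calc m.real ((⋂ i, E i) ∆ (⋂ i, F i)) ≤ m.real (⋃ i, E i ∆ F i) := by
        refine measureReal_mono ?_ (measure_ne_top _ _)
        rintro z (⟨h1, h2⟩ | ⟨h1, h2⟩)
        · rw [mem_iInter] at h1 h2
          push Not at h2
          obtain ⟨i, hi⟩ := h2
          exact mem_iUnion.2 ⟨i, Or.inl ⟨h1 i, hi⟩⟩
        · rw [mem_iInter] at h1 h2
          push Not at h2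
          obtain ⟨i, hi⟩ := h2
          exact mem_iUnion.2 ⟨i, Or.inr ⟨h1 i, hi⟩⟩
    _ ≤ _ := measureReal_iUnion_fintype_le _

/-- The averaging estimate. -/
theorem avg_label [IsProbabilityMeasure m] {K : Type*} [Fintype K] (L : ℕ)
    (P : ℕ → Z → K) (hP : ∀ l a, MeasurableSet (P l ⁻¹' {a}))
    (w : K → Set Z) (hw : ∀ a, MeasurableSet (w a)) (c : K → ℝ) :
    |∑ l ∈ Finset.range L, (1 / (L:ℝ)) * m.real {z | z ∈ w (P l z)} - ∑ a, c a * m.real (w a)| ≤
      ∑ a, ∫ z, |∑ l ∈ Finset.range L, (1 / (L:ℝ)) * ind (P l ⁻¹' {a}) z - c a| ∂m := by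
  classical
  have hind : ∀ l z, ind {z | z ∈ w (P l z)} z = ∑ a, ind (P l ⁻¹' {a}) z * ind (w a) z := by
    intro l z
    rw [Finset.sum_eq_single (P l z)]
    · have h1 : ind (P l ⁻¹' {P l z}) z = 1 := by
        simp
      rw [h1, one_mul]
      by_cases hz : z ∈ w (P l z)
      · have h2 : z ∈ {z | z ∈ w (P l z)} := hz
        rw [ind, ind, Set.indicator_of_mem h2, Set.indicator_of_mem hz]
      · have h2 : z ∉ {z | z ∈ w (P l z)} := hz
        rw [ind, ind, Set.indicator_of_notMem h2, Set.indicator_of_notMem hz]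
    · intro a _ ha
      have h1 : ind (P l ⁻¹' {a}) z = 0 := by
        rw [ind, Set.indicator_of_notMem]
        simpa using ha.symm
      rw [h1, zero_mul]
    · intro h; exact absurd (Finset.mem_univ _) h
  have hmeas : ∀ l, MeasurableSet {z | z ∈ w (P l z)} := by
    intro l
    have : {z | z ∈ w (P l z)} = ⋃ a, (P l ⁻¹' {a} ∩ w a) := by
      ext z; simp
    rw [this]
    exact MeasurableSet.iUnion fun a => (hP l a).inter (hw a)
  have hIA : ∀ a, Integrable
      (fun z => ∑ l ∈ Finset.range L, (1 / (L:ℝ)) * ind (P l ⁻¹' {a}) z - c a) m := by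
    intro a
    exact (integrable_finsetSum _ fun l _ => (integrable_ind m (hP l a)).const_mul _).sub
      (integrable_const _)
  have hIP : ∀ a, Integrable
      (fun z => (∑ l ∈ Finset.range L, (1 / (L:ℝ)) * ind (P l ⁻¹' {a}) z - c a) *
        ind (w a) z) m := by
    intro a
    refine (hIA a).mul_bdd (c := 1) (measurable_ind (hw a)).aestronglyMeasurable
      (Eventually.of_forall fun z => ?_)
    rw [Real.norm_eq_abs, abs_of_nonneg (ind_nonneg _ _)]
    exact ind_le_one _ _
  have heq : ∑ l ∈ Finset.range L, (1 / (L:ℝ)) * m.real {z | z ∈ w (P l z)} -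
      ∑ a, c a * m.real (w a) =
      ∫ z, ∑ a, (∑ l ∈ Finset.range L, (1 / (L:ℝ)) * ind (P l ⁻¹' {a}) z - c a) *
        ind (w a) z ∂m := by
    have h1 : ∀ z, ∑ a, (∑ l ∈ Finset.range L, (1 / (L:ℝ)) * ind (P l ⁻¹' {a}) z - c a) *
        ind (w a) z = ∑ l ∈ Finset.range L, (1 / (L:ℝ)) * ind {z | z ∈ w (P l z)} z -
          ∑ a, c a * ind (w a) z := by
      intro z
      simp only [sub_mul, Finset.sum_sub_distrib]
      congr 1
      simp only [Finset.sum_mul]
      rw [Finset.sum_comm]
      refine Finset.sum_congr rfl fun l _ => ?_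
      rw [hind, Finset.mul_sum]
      refine Finset.sum_congr rfl fun a _ => ?_
      ring
    simp_rw [h1]
    rw [integral_sub (integrable_finsetSum _ fun l _ => (integrable_ind m (hmeas l)).const_mul _)
      (integrable_finsetSum _ fun a _ => (integrable_ind m (hw a)).const_mul _),
      integral_finsetSum _ fun l _ => (integrable_ind m (hmeas l)).const_mul _,
      integral_finsetSum _ fun a _ => (integrable_ind m (hw a)).const_mul _]
    congr 1
    · refine Finset.sum_congr rfl fun l _ => ?_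
      rw [integral_const_mul, integral_ind m (hmeas l)]
    · refine Finset.sum_congr rfl fun a _ => ?_
      rw [integral_const_mul, integral_ind m (hw a)]
  rw [heq, integral_finsetSum _ fun a _ => hIP a]
  refine (Finset.abs_sum_le_sum_abs _ _).trans (Finset.sum_le_sum fun a _ => ?_)
  refine abs_integral_le_integral_abs.trans (integral_mono (hIP a).abs (hIA a).abs fun z => ?_)
  simp only [abs_mul]
  rw [abs_of_nonneg (ind_nonneg (w a) z)]
  exact mul_le_of_le_one_right (abs_nonneg _) (ind_le_one _ _)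

end

section

variable {X Y : Type*} [MeasurableSpace X] [MeasurableSpace Y] (μ : Measure X) (ν : Measure Y)
  [IsProbabilityMeasure μ] [IsProbabilityMeasure ν]

omit [IsProbabilityMeasure ν] in
theorem measurable_section {D : Set (X × Y)} (hD : MeasurableSet D) :
    Measurable fun y => μ.real {x | (x, y) ∈ D} :=
  (measurable_measure_prodMk_right hD).ennreal_toReal

theorem integrable_section {D : Set (X × Y)} (hD : MeasurableSet D) :
    Integrable (fun y => μ.real {x | (x, y) ∈ D}) ν := by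
  refine Integrable.of_bound (measurable_section μ hD).aestronglyMeasurable 1
    (Eventually.of_forall fun y => ?_)
  rw [Real.norm_eq_abs, abs_of_nonneg measureReal_nonneg]
  exact measureReal_le_one

theorem integral_section {D : Set (X × Y)} (hD : MeasurableSet D) :
    ∫ y, μ.real {x | (x, y) ∈ D} ∂ν = (μ.prod ν).real D := by
  rw [measureReal_def (μ.prod ν), Measure.prod_apply_symm hD,
    ← integral_toReal (measurable_measure_prodMk_right hD).aemeasurable
      (Eventually.of_forall fun y => measure_lt_top _ _)]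
  rfl

end

end Pool.Agent.Lib.MP_7561b1_an
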