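import Mathlib

/-!
# Definitions for MP_7561b1_an

Cocycles `α : X → Aut(Y,ν)`, the space of cocycles modulo null sets with the topology of
convergence in measure (`Aut(Y,ν)` with the weak topology), skew products and multiple mixing.
-/

open MeasureTheory Set
open scoped symmDiff Topology

namespace Pool.Agent.Lib.MP_7561b1_an

/-- A measurable cocycle `α : X → Aut(Y,ν)`: every `α(x)` is a `ν`-preserving Borel automorphism of
`Y`, and `(x,y) ↦ α(x)y`, `(x,y) ↦ α(x)⁻¹y` are measurable. -/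
structure Cocycle {X Y : Type*} [MeasurableSpace X] [MeasurableSpace Y]
    (μ : Measure X) (ν : Measure Y) where
  /-- the automorphism `α(x)` -/
  aut : X → Y ≃ᵐ Y
  measurable_aut : Measurable fun p : X × Y => aut p.1 p.2
  measurable_symm : Measurable fun p : X × Y => (aut p.1).symm p.2
  preserves : ∀ x, MeasurePreserving (aut x) ν ν

variable {X Y : Type*} [MeasurableSpace X] [MeasurableSpace Y] {μ : Measure X} {ν : Measure Y}

/-- The topology of convergence in `μ`-measure, where `Aut(Y,ν)` carries the weak topology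
(`S_n → S` iff `ν(S_n⁻¹B ∆ S⁻¹B) → 0` for all measurable `B`): it is generated by the sets
`{β : μ {x : ν(α(x)⁻¹B ∆ β(x)⁻¹B) ≥ ε} < ε}`. -/
instance : TopologicalSpace (Cocycle μ ν) :=
  TopologicalSpace.generateFrom
    {U | ∃ (α : Cocycle μ ν) (B : Set Y) (ε : ℝ), MeasurableSet B ∧ 0 < ε ∧
      U = {β : Cocycle μ ν |
        μ {x | ENNReal.ofReal ε ≤ ν ((α.aut x ⁻¹' B) ∆ (β.aut x ⁻¹' B))} < ENNReal.ofReal ε}}

/-- Equality of cocycles modulo null sets. -/
def aeSetoid (μ : Measure X) (ν : Measure Y) : Setoid (Cocycle μ ν) where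
  r α β := ∀ᵐ x ∂μ, ∀ᵐ y ∂ν, α.aut x y = β.aut x y
  iseqv :=
    { refl := fun _ => Filter.Eventually.of_forall fun _ => Filter.Eventually.of_forall fun _ => rfl
      symm := fun h => by
        filter_upwards [h] with x hx
        filter_upwards [hx] with y hy using hy.symm
      trans := fun h1 h2 => by
        filter_upwards [h1, h2] with x hx1 hx2
        filter_upwards [hx1, hx2] with y hy1 hy2 using hy1.trans hy2 }

/-- The space of cocycles modulo null sets. -/
def CocycleClass (μ : Measure X) (ν : Measure Y) : Type _ := Quotient (aeSetoid μ ν)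

/-- The class of a cocycle modulo null sets. -/
def Cocycle.toClass (α : Cocycle μ ν) : CocycleClass μ ν := Quotient.mk (aeSetoid μ ν) α

/-- The space of cocycles modulo null sets carries the quotient topology. -/
instance : TopologicalSpace (CocycleClass μ ν) :=
  TopologicalSpace.coinduced Cocycle.toClass inferInstance

/-- The skew product `T_α(x,y) = (Tx, α(x)y)`. -/
def skew (T : X ≃ᵐ X) (α : Cocycle μ ν) (p : X × Y) : X × Y := (T p.1, α.aut p.1 p.2)

/-- Multiple mixing: for all `k` and measurable `A₀, …, A_k`,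
`μ(A₀ ∩ T^{-n₁}A₁ ∩ ⋯ ∩ T^{-n_k}A_k) → μ(A₀) ⋯ μ(A_k)` as `n₁ → ∞` and `n_{i+1} - n_i → ∞`. -/
def IsMultiplyMixing {Z : Type*} [MeasurableSpace Z] (S : Z → Z) (m : Measure Z) : Prop :=
  ∀ (k : ℕ) (A : Fin (k + 1) → Set Z), (∀ i, MeasurableSet (A i)) → ∀ ε : ℝ, 0 < ε →
    ∃ N : ℕ, ∀ n : Fin (k + 1) → ℕ, n 0 = 0 → (∀ i : Fin k, n i.castSucc + N ≤ n i.succ) →
      |m.real (⋂ i, S^[n i] ⁻¹' A i) - ∏ i, m.real (A i)| < ε

end Pool.Agent.Lib.MP_7561b1_an
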