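import Pool.Agent.Lib.MP_7561b1_an.Main

/-!
# Multiple mixing of the generic extension: assembly
-/

open MeasureTheory Set Filter
open scoped Topology ENNReal symmDiff

namespace Pool.Agent.Lib.MP_7561b1_an

variable {X Y : Type*} [MeasurableSpace X] [StandardBorelSpace X] [MeasurableSpace Y]
  {μ : Measure X} {ν : Measure Y}
  [IsProbabilityMeasure μ] [NullSingletonClass μ] [IsProbabilityMeasure ν]
  {T : X ≃ᵐ X} {R : Y ≃ᵐ Y}

/-- Near any cocycle there is an open set of cocycles with uniformly good correlations. -/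
theorem exists_good_near (hmix : IsMultiplyMixing T μ) (hT : MeasurePreserving T μ μ)
    (hR : MeasurePreserving R ν ν)
    (hR2 : ∀ B : Set Y, MeasurableSet B →
      Tendsto (fun n => ν.real (B ∩ R^[n] ⁻¹' B)) atTop (𝓝 (ν.real B * ν.real B)))
    {k : ℕ} (A : Fin (k + 1) → Set (X × Y)) (hA : ∀ i, MeasurableSet (A i)) {ε : ℝ} (hε : 0 < ε)
    {U : Set (Cocycle μ ν)} (hU : IsOpen U) (hUne : U.Nonempty) :
    ∃ V : Set (Cocycle μ ν), IsOpen V ∧ (V ∩ U).Nonempty ∧ ∃ N, ∀ α ∈ V,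
      ∀ n : Fin (k + 1) → ℕ, Gap N n →
      |(μ.prod ν).real (⋂ i, (skew T α)^[n i] ⁻¹' A i) - ∏ i, (μ.prod ν).real (A i)| < ε := by
  classical
  obtain ⟨α₀, hα₀⟩ := hUne
  obtain ⟨r, hr, hrU⟩ := exists_radius hU hα₀
  obtain ⟨δ₀, hδ₀0, hδ₀⟩ : ∃ δ₀ : ℝ, 0 < δ₀ ∧ ENNReal.ofReal δ₀ < r := by
    rcases ENNReal.lt_iff_exists_real_btwn.1 hr with ⟨q, hq0, hq1, hq2⟩
    exact ⟨q, ENNReal.ofReal_pos.1 hq1, hq2⟩
  have hk : (0:ℝ) < k + 1 := by positivity
  set ε' : ℝ := ε / (8 * (k + 1)) with hε'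
  have hε'0 : 0 < ε' := by positivity
  obtain ⟨γ, ⟨E, hEδ, hE⟩, hwild⟩ := exists_wild_cobd hmix hT hR hR2 α₀ A hA hδ₀0 hε'0
  set β := cobd T γ with hβ
  have hβU : β ∈ U := by
    apply hrU β E _ hE
    have h1 : μ E = ENNReal.ofReal (μ.real E) := (ofReal_measureReal (measure_ne_top _ _)).symm
    rw [h1]
    exact (ENNReal.ofReal_le_ofReal hEδ).trans_lt hδ₀
  set Φ := fmap γ with hΦ
  set Φi := fmap γ.inv with hΦi
  have hΦp : MeasurePreserving Φ (μ.prod ν) (μ.prod ν) := fmap_preserving _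
  have hΦip : MeasurePreserving Φi (μ.prod ν) (μ.prod ν) := fmap_preserving _
  have hinv : ∀ z, Φi (Φ z) = z := by
    rintro ⟨x, y⟩
    show (x, (γ.aut x).symm (γ.aut x y)) = (x, y)
    rw [MeasurableEquiv.symm_apply_apply]
  obtain ⟨ι, hι, p, Q, hp, hQ, hlt⟩ :=
    exists_fib_approx (μ.prod ν) (fun i => Φi ⁻¹' A i) (fun i => hΦip.measurable (hA i)) hε'0
  set W : Fin (k + 1) → ι → Set (X × Y) := fun i a => {z | γ.aut z.1 z.2 ∈ Q i a} with hW
  have hWm : ∀ i a, MeasurableSet (W i a) := fun i a => γ.measurable_aut (hQ i a)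
  have hF : ∀ i, MeasurableSet (fib p (Q i)) := fun i => measurableSet_fib hp (hQ i)
  -- choice of `L`
  set K : ℝ := (Fintype.card (Fin (k + 1) → ι) : ℝ) with hK
  have hK0 : 0 ≤ K := by positivity
  set ε₃ : ℝ := ε / (8 * (K + 1)) with hε₃
  have hε₃0 : 0 < ε₃ := by positivity
  have hLex : ∀ᶠ L : ℕ in atTop, ∀ a : Fin (k + 1) → ι, ∀ᶠ N in atTop,
      ∀ n : Fin (k + 1) → ℕ, Gap N n →
      ∫ x, |∑ l ∈ Finset.range L, (1 / (L:ℝ)) * ind (⋂ i, T^[n i + l] ⁻¹' (p ⁻¹' {a i})) x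
        - ∏ i, μ.real (p ⁻¹' {a i})| ∂μ ≤ ε₃ := by
    rw [Filter.eventually_all]
    intro a
    exact avg_mixing hT hmix (fun i => p ⁻¹' {a i}) (fun i => hp (a i)) hε₃0
  obtain ⟨L, hLt, hL⟩ := (hLex.and (eventually_gt_atTop 0)).exists
  have hLp : (0:ℝ) < L := by exact_mod_cast hL
  rw [← Filter.eventually_all] at hLt
  obtain ⟨N, hN⟩ := hLt.exists
  -- the open set
  set C : ℝ := (Fintype.card ι : ℝ) with hC
  have hC0 : 0 ≤ C := by positivity
  set δ : ℝ := ε / (8 * (k + 1) * (C + 1) * L) with hδ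
  have hδ0 : 0 < δ := by positivity
  obtain ⟨V, hVo, hβV, hV⟩ := exists_open_near hT β (κ := Fin (k + 1) × ι)
    (fun i => W i.1 i.2) (fun i => hWm i.1 i.2) hδ0
  refine ⟨V, hVo, ⟨β, hβV, hβU⟩, N, fun α hα n hn => ?_⟩
  have hWinv : ∀ i a, skew T β ⁻¹' W i a = W i a := by
    intro i a
    ext z
    show γ.aut (T z.1) ((cobd T γ).aut z.1 z.2) ∈ Q i a ↔ γ.aut z.1 z.2 ∈ Q i a
    rw [cobd_apply, MeasurableEquiv.apply_symm_apply]
  have hWδ : ∀ i a, (μ.prod ν).real ((skew T α ⁻¹' W i a) ∆ W i a) ≤ δ := by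
    intro i a
    have := hV α hα (i, a)
    simp only [hWinv] at this
    exact this
  have hRε : ∀ i, (μ.prod ν).real (A i ∆ {z | z ∈ W i (p z.1)}) ≤ ε' := by
    intro i
    have h1 : A i ∆ {z | z ∈ W i (p z.1)} = Φ ⁻¹' ((Φi ⁻¹' A i) ∆ fib p (Q i)) := by
      rw [Set.preimage_symmDiff]
      congr 1
      ext z
      show _ ↔ Φi (Φ z) ∈ A i
      rw [hinv]
    rw [h1, hΦp.measureReal_preimage
      ((hΦip.measurable (hA i)).symmDiff (hF i)).nullMeasurableSet]
    exact (hlt i).le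
  have hb : ∀ i, ∫ z, |∑ a, μ.real (p ⁻¹' {a}) * ind (W i a) z - (μ.prod ν).real (A i)|
      ∂(μ.prod ν) ≤ 2 * ε' := by
    intro i
    have hsnd : MeasurePreserving (fun z : X × Y => (Φ z).2) (μ.prod ν) ν :=
      (measurePreserving_snd (μ := μ) (ν := ν)).comp hΦp
    have hm1 : Measurable fun y => |∑ a, μ.real (p ⁻¹' {a}) * ind (Q i a) y -
        (μ.prod ν).real (A i)| :=
      ((Finset.measurable_sum _ fun a _ => (measurable_ind (hQ i a)).const_mul _).sub
        measurable_const).abs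
    have h1 : ∫ z, |∑ a, μ.real (p ⁻¹' {a}) * ind (W i a) z - (μ.prod ν).real (A i)|
        ∂(μ.prod ν) = ∫ y, |∑ a, μ.real (p ⁻¹' {a}) * ind (Q i a) y -
          (μ.prod ν).real (A i)| ∂ν := by
      have h2 := integral_map (μ := μ.prod ν) hsnd.measurable.aemeasurable
        (hm1.aestronglyMeasurable (μ := Measure.map (fun z : X × Y => (Φ z).2) (μ.prod ν)))
      rw [hsnd.map_eq] at h2
      exact h2.symm
    have h3 : ∀ y, ∑ a, μ.real (p ⁻¹' {a}) * ind (Q i a) y =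
        μ.real {x | (x, y) ∈ fib p (Q i)} := by
      intro y
      have h4 : {x | (x, y) ∈ fib p (Q i)} = ⋃ a, {x | p x = a ∧ y ∈ Q i a} := by
        ext x; simp [mem_fib]
      have h5 : ∀ a, MeasurableSet {x | p x = a ∧ y ∈ Q i a} := by
        intro a
        by_cases hy : y ∈ Q i a
        · have : {x | p x = a ∧ y ∈ Q i a} = p ⁻¹' {a} := by ext x; simp [hy]
          rw [this]; exact hp a
        · have : {x | p x = a ∧ y ∈ Q i a} = ∅ := by ext x; simp [hy]
          rw [this]; exact MeasurableSet.empty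
      rw [h4, measureReal_iUnion_fintype]
      · refine Finset.sum_congr rfl fun a _ => ?_
        by_cases hy : y ∈ Q i a
        · have : {x | p x = a ∧ y ∈ Q i a} = p ⁻¹' {a} := by ext x; simp [hy]
          rw [this, ind, Set.indicator_of_mem hy, mul_one]
        · have : {x | p x = a ∧ y ∈ Q i a} = ∅ := by ext x; simp [hy]
          rw [this, ind, Set.indicator_of_notMem hy, mul_zero, measureReal_empty]
      · intro a b hab
        refine Set.disjoint_left.2 fun x hx hx' => hab ?_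
        exact hx.1.symm.trans hx'.1
      · exact h5
    rw [h1]
    simp only [h3]
    have hA'm : MeasurableSet (Φi ⁻¹' A i) := hΦip.measurable (hA i)
    have hI1 : Integrable (fun y => μ.real {x | (x, y) ∈ (Φi ⁻¹' A i) ∆ fib p (Q i)}) ν :=
      integrable_section μ ν (hA'm.symmDiff (hF i))
    have hI2 : Integrable (fun y => |μ.real {x | (x, (γ.aut x).symm y) ∈ A i} -
        (μ.prod ν).real (A i)|) ν :=
      ((integrable_section μ ν hA'm).sub (integrable_const ((μ.prod ν).real (A i)))).abs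
    calc ∫ y, |μ.real {x | (x, y) ∈ fib p (Q i)} - (μ.prod ν).real (A i)| ∂ν
        ≤ ∫ y, (μ.real {x | (x, y) ∈ (Φi ⁻¹' A i) ∆ fib p (Q i)} +
          |μ.real {x | (x, (γ.aut x).symm y) ∈ A i} - (μ.prod ν).real (A i)|) ∂ν := by
          refine integral_mono_of_nonneg (Eventually.of_forall fun y => abs_nonneg _)
            (hI1.add hI2) (Eventually.of_forall fun y => ?_)
          have h6 := abs_sub_le (μ.real {x | (x, y) ∈ fib p (Q i)})
            (μ.real {x | (x, (γ.aut x).symm y) ∈ A i}) ((μ.prod ν).real (A i))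
          have h7 : |μ.real {x | (x, y) ∈ fib p (Q i)} -
              μ.real {x | (x, (γ.aut x).symm y) ∈ A i}| ≤
              μ.real {x | (x, y) ∈ (Φi ⁻¹' A i) ∆ fib p (Q i)} := by
            rw [abs_sub_comm]
            exact abs_measureReal_sub_le μ _ _
          show |_| ≤ _
          linarith
      _ = ∫ y, μ.real {x | (x, y) ∈ (Φi ⁻¹' A i) ∆ fib p (Q i)} ∂ν +
          ∫ y, |μ.real {x | (x, (γ.aut x).symm y) ∈ A i} - (μ.prod ν).real (A i)| ∂ν :=
          integral_add hI1 hI2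
      _ ≤ ε' + ε' := by
          rw [integral_section μ ν (hA'm.symmDiff (hF i))]
          exact add_le_add (hlt i).le (hwild i)
      _ = 2 * ε' := (two_mul _).symm
  have hmain := main_estimate hT α A hA hp W hWm hWδ hRε hL n (fun a => hN a n hn) hb
  refine hmain.trans_lt ?_
  have e1 : ((k:ℝ) + 1) * ε' = ε / 8 := by rw [hε']; field_simp
  have e2 : ((k:ℝ) + 1) * (C * (L * δ)) ≤ ε / 8 := by
    have h9 : ((k:ℝ) + 1) * (C * (L * δ)) = ε / 8 * (C / (C + 1)) := by
      rw [hδ]; field_simp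
    rw [h9]
    have h10 : C / (C + 1) ≤ 1 := by
      rw [div_le_one (by positivity)]; linarith
    have : 0 ≤ ε / 8 := by positivity
    nlinarith
  have e3 : K * ε₃ ≤ ε / 8 := by
    have h9 : K * ε₃ = ε / 8 * (K / (K + 1)) := by
      rw [hε₃]; field_simp
    rw [h9]
    have h10 : K / (K + 1) ≤ 1 := by
      rw [div_le_one (by positivity)]; linarith
    have : 0 ≤ ε / 8 := by positivity
    nlinarith
  have e4 : ((k:ℝ) + 1) * (2 * ε') = 2 * (ε / 8) := by rw [← e1]; ring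
  linarith

/-- A dense open set of cocycles with good correlations. -/
theorem exists_good_open (hmix : IsMultiplyMixing T μ) (hT : MeasurePreserving T μ μ)
    (hR : MeasurePreserving R ν ν)
    (hR2 : ∀ B : Set Y, MeasurableSet B →
      Tendsto (fun n => ν.real (B ∩ R^[n] ⁻¹' B)) atTop (𝓝 (ν.real B * ν.real B)))
    {k : ℕ} (A : Fin (k + 1) → Set (X × Y)) (hA : ∀ i, MeasurableSet (A i)) {ε : ℝ}
    (hε : 0 < ε) :
    ∃ V : Set (Cocycle μ ν), IsOpen V ∧ Dense V ∧ ∀ α ∈ V, ∃ N,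
      ∀ n : Fin (k + 1) → ℕ, Gap N n →
      |(μ.prod ν).real (⋂ i, (skew T α)^[n i] ⁻¹' A i) - ∏ i, (μ.prod ν).real (A i)| < ε := by
  refine ⟨⋃₀ {V | IsOpen V ∧ ∃ N, ∀ α ∈ V, ∀ n : Fin (k + 1) → ℕ, Gap N n →
      |(μ.prod ν).real (⋂ i, (skew T α)^[n i] ⁻¹' A i) - ∏ i, (μ.prod ν).real (A i)| < ε},
    isOpen_sUnion fun V hV => hV.1, ?_, ?_⟩
  · rw [dense_iff_inter_open]
    intro U hU hUne
    obtain ⟨V, hV, ⟨β, hβV, hβU⟩, hN⟩ := exists_good_near hmix hT hR hR2 A hA hε hU hUne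
    exact ⟨β, hβU, mem_sUnion.2 ⟨V, ⟨hV, hN⟩, hβV⟩⟩
  · rintro α ⟨V, ⟨_, N, hN⟩, hα⟩
    exact ⟨N, hN α hα⟩

/-- **Main theorem.** The generic extension of a multiply mixing transformation is multiply
mixing. -/
theorem generic_multiplyMixing [StandardBorelSpace Y] [NullSingletonClass ν]
    (hmix : IsMultiplyMixing T μ) (hT : MeasurePreserving T μ μ) :
    ∀ᶠ c in residual (CocycleClass μ ν), ∀ α : Cocycle μ ν, α.toClass = c →
      IsMultiplyMixing (skew T α) (μ.prod ν) := by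
  classical
  -- a mixing transformation of `Y`
  obtain ⟨e, he⟩ := exists_equiv μ ν
  set R : Y ≃ᵐ Y := e.symm.trans (T.trans e) with hRdef
  have hR : MeasurePreserving R ν ν := he.comp (hT.comp (he.symm e))
  have hiter : ∀ n x, R^[n] (e x) = e (T^[n] x) := by
    intro n x
    induction n with
    | zero => rfl
    | succ n ih =>
      rw [Function.iterate_succ_apply', ih, Function.iterate_succ_apply']
      show e (T (e.symm (e (T^[n] x)))) = _
      rw [MeasurableEquiv.symm_apply_apply]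
  have hR2 : ∀ B : Set Y, MeasurableSet B →
      Tendsto (fun n => ν.real (B ∩ R^[n] ⁻¹' B)) atTop (𝓝 (ν.real B * ν.real B)) := by
    intro B hB
    have hBm : MeasurableSet (e ⁻¹' B) := e.measurable hB
    have h1 := hmix.two hBm hBm
    have h2 : μ.real (e ⁻¹' B) = ν.real B := he.measureReal_preimage hB.nullMeasurableSet
    have h3 : ∀ n, μ.real (e ⁻¹' B ∩ T^[n] ⁻¹' (e ⁻¹' B)) = ν.real (B ∩ R^[n] ⁻¹' B) := by
      intro n
      rw [← he.measureReal_preimage
        (hB.inter ((R.measurable.iterate n) hB)).nullMeasurableSet]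
      congr 1
      ext x
      simp only [mem_inter_iff, mem_preimage, hiter]
    simp only [h3, h2] at h1
    exact h1
  -- the countable dense family
  obtain ⟨𝒟, h𝒟c, h𝒟⟩ := exists_countable_measureDense (μ.prod ν)
  have : Countable 𝒟 := h𝒟c.to_subtype
  let I := Σ k : ℕ, (Fin (k + 1) → 𝒟) × ℕ
  have hgood : ∀ q : I, ∃ V : Set (Cocycle μ ν), IsOpen V ∧ Dense V ∧ ∀ α ∈ V, ∃ N,
      ∀ n : Fin (q.1 + 1) → ℕ, Gap N n →
      |(μ.prod ν).real (⋂ i, (skew T α)^[n i] ⁻¹' (q.2.1 i : Set (X × Y))) -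
        ∏ i, (μ.prod ν).real (q.2.1 i : Set (X × Y))| < 1 / ((q.2.2 : ℝ) + 1) := by
    intro q
    exact exists_good_open hmix hT hR hR2 (fun i => (q.2.1 i : Set (X × Y)))
      (fun i => h𝒟.measurable _ (q.2.1 i).2) (by positivity)
  choose V hVo hVd hV using hgood
  refine residual_of V hVo hVd fun α hα => ?_
  intro k A hA ε hε
  have hk : (0:ℝ) < k + 1 := by positivity
  have hη : 0 < ε / (4 * (k + 1)) := by positivity
  have hD : ∀ i, ∃ D : 𝒟, (μ.prod ν).real (A i ∆ (D : Set (X × Y))) < ε / (4 * (k + 1)) := by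
    intro i
    obtain ⟨t, ht, hlt⟩ := h𝒟.approx (A i) (hA i) (measure_ne_top _ _) _ hη
    exact ⟨⟨t, ht⟩, (ENNReal.lt_ofReal_iff_toReal_lt (measure_ne_top _ _)).1 hlt⟩
  choose D hD using hD
  obtain ⟨j, hj⟩ := exists_nat_one_div_lt (half_pos hε)
  obtain ⟨N, hN⟩ := hV ⟨k, D, j⟩ α (hα _)
  refine ⟨N, fun n hn0 hn => ?_⟩
  have h1 := hN n ⟨hn0, hn⟩
  simp only at h1
  have hSp := skew_preserving (ν := ν) hT α
  have h2 : |(μ.prod ν).real (⋂ i, (skew T α)^[n i] ⁻¹' A i) -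
      (μ.prod ν).real (⋂ i, (skew T α)^[n i] ⁻¹' (D i : Set (X × Y)))| ≤ ε / 4 := by
    refine (abs_measureReal_iInter_sub_le _ _ _).trans ?_
    calc _ ≤ ∑ _i : Fin (k + 1), ε / (4 * (k + 1)) := by
          refine Finset.sum_le_sum fun i _ => ?_
          rw [← Set.preimage_symmDiff, (hSp.iterate (n i)).measureReal_preimage
            ((hA i).symmDiff (h𝒟.measurable _ (D i).2)).nullMeasurableSet]
          exact (hD i).le
      _ = ε / 4 := by
          rw [Finset.sum_const, Finset.card_univ, Fintype.card_fin, nsmul_eq_mul]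
          push_cast; field_simp
  have h3 : |∏ i, (μ.prod ν).real (D i : Set (X × Y)) - ∏ i, (μ.prod ν).real (A i)| ≤ ε / 4 := by
    refine (abs_prod_sub_prod_le _ _ _ (fun _ _ => measureReal_nonneg)
      (fun _ _ => measureReal_le_one) (fun _ _ => measureReal_nonneg)
      (fun _ _ => measureReal_le_one)).trans ?_
    calc _ ≤ ∑ _i : Fin (k + 1), ε / (4 * (k + 1)) := by
          refine Finset.sum_le_sum fun i _ => ?_
          rw [abs_sub_comm]
          exact (abs_measureReal_sub_le _ _ _).trans (hD i).le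
      _ = ε / 4 := by
          rw [Finset.sum_const, Finset.card_univ, Fintype.card_fin, nsmul_eq_mul]
          push_cast; field_simp
  have t1 := abs_sub_le ((μ.prod ν).real (⋂ i, (skew T α)^[n i] ⁻¹' A i))
    ((μ.prod ν).real (⋂ i, (skew T α)^[n i] ⁻¹' (D i : Set (X × Y))))
    (∏ i, (μ.prod ν).real (A i))
  have t2 := abs_sub_le
    ((μ.prod ν).real (⋂ i, (skew T α)^[n i] ⁻¹' (D i : Set (X × Y))))
    (∏ i, (μ.prod ν).real (D i : Set (X × Y))) (∏ i, (μ.prod ν).real (A i))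
  linarith

end Pool.Agent.Lib.MP_7561b1_an
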