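import Pool.Agent.Lib.MP_7561b1_an.Defs

/-!
# Isomorphism of standard non-atomic probability spaces

Every standard Borel probability space without atoms is isomorphic, through a genuine Borel
isomorphism, to `ℝ` with Lebesgue measure on `[0,1]`.
-/

open MeasureTheory Set ProbabilityTheory Filter
open scoped Topology ENNReal Function

namespace Pool.Agent.Lib.MP_7561b1_an

/-- The uniform measure on `[0,1]`, as a measure on `ℝ`. -/
noncomputable abbrev unif : Measure ℝ := volume.restrict (Icc (0:ℝ) 1)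

instance : IsProbabilityMeasure unif := ⟨by simp [unif]⟩

theorem continuous_cdf (ρ : Measure ℝ) [IsProbabilityMeasure ρ] [NullSingletonClass ρ] :
    Continuous (cdf ρ) := by
  rw [continuous_iff_continuousAt]
  intro a
  rw [(monotone_cdf ρ).continuousAt_iff_leftLim_eq_rightLim, StieltjesFunction.rightLim_eq]
  have h := StieltjesFunction.measure_singleton (cdf ρ) a
  rw [measure_cdf, measure_singleton] at h
  have h2 := (ENNReal.ofReal_eq_zero.1 h.symm)
  exact le_antisymm ((monotone_cdf ρ).leftLim_le le_rfl) (by linarith)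

theorem map_cdf_eq (ρ : Measure ℝ) [IsProbabilityMeasure ρ] [NullSingletonClass ρ] :
    ρ.map (cdf ρ) = unif := by
  have hc := continuous_cdf ρ
  have hrange : ∀ b : ℝ, 0 < b → b < 1 → ∃ s, cdf ρ s = b := by
    intro b hb0 hb1
    have h1 : ∃ s, cdf ρ s ≤ b := by
      have := (tendsto_cdf_atBot ρ).eventually (Iic_mem_nhds hb0)
      exact this.exists
    have h2 : ∃ s, b ≤ cdf ρ s := by
      have := (tendsto_cdf_atTop ρ).eventually (Ici_mem_nhds hb1)
      exact this.exists
    exact mem_range_of_exists_le_of_exists_ge hc h1 h2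
  have : IsProbabilityMeasure (ρ.map (cdf ρ)) :=
    Measure.isProbabilityMeasure_map hc.aemeasurable
  refine Measure.ext_of_Iic _ _ fun a => ?_
  rw [Measure.map_apply hc.measurable measurableSet_Iic, Measure.restrict_apply measurableSet_Iic]
  rcases lt_or_ge a 0 with ha | ha
  · have h1 : cdf ρ ⁻¹' Iic a = ∅ := by
      ext t; simp only [mem_preimage, mem_Iic, mem_empty_iff_false, iff_false, not_le]
      exact lt_of_lt_of_le ha (cdf_nonneg ρ t)
    have h2 : Iic a ∩ Icc (0:ℝ) 1 = ∅ := by
      ext t; simp only [mem_inter_iff, mem_Iic, mem_Icc, mem_empty_iff_false, iff_false]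
      rintro ⟨h, h', _⟩; linarith
    rw [h1, h2]; simp
  rcases lt_or_ge a 1 with ha1 | ha1
  · have h2 : Iic a ∩ Icc (0:ℝ) 1 = Icc 0 a := by
      ext t; simp only [mem_inter_iff, mem_Iic, mem_Icc]
      constructor
      · rintro ⟨h, h', _⟩; exact ⟨h', h⟩
      · rintro ⟨h, h'⟩; exact ⟨h', h, by linarith⟩
    rw [h2, Real.volume_Icc, sub_zero]
    apply le_antisymm
    · refine le_of_forall_gt_imp_ge_of_dense fun c hc' => ?_
      -- reduce to real b
      rcases eq_or_ne c ∞ with rfl | hctop
      · exact le_top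
      have hc1 : a < c.toReal := by
        rw [← ENNReal.ofReal_lt_iff_lt_toReal ha hctop]; exact hc'
      set b := min c.toReal ((a + 1) / 2) with hb
      have hb0 : a < b := lt_min hc1 (by linarith)
      have hb1 : b < 1 := lt_of_le_of_lt (min_le_right _ _) (by linarith)
      obtain ⟨s, hs⟩ := hrange b (by linarith) hb1
      have hsub : cdf ρ ⁻¹' Iic a ⊆ Iic s := by
        intro t ht
        simp only [mem_preimage, mem_Iic] at ht ⊢
        by_contra hlt
        push Not at hlt
        have := monotone_cdf ρ hlt.le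
        linarith
      calc ρ (cdf ρ ⁻¹' Iic a) ≤ ρ (Iic s) := measure_mono hsub
        _ = ENNReal.ofReal b := by rw [← ofReal_cdf ρ s, hs]
        _ ≤ ENNReal.ofReal c.toReal := ENNReal.ofReal_le_ofReal (min_le_left _ _)
        _ = c := ENNReal.ofReal_toReal hctop
    · rcases eq_or_lt_of_le ha with ha0 | ha0
      · rw [← ha0]; simp
      obtain ⟨s, hs⟩ := hrange a ha0 ha1
      rw [← hs, ofReal_cdf ρ s]
      apply measure_mono
      intro t ht
      simp only [mem_preimage, mem_Iic] at ht ⊢
      exact monotone_cdf ρ ht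
  · have h1 : cdf ρ ⁻¹' Iic a = univ := by
      ext t; simp only [mem_preimage, mem_Iic, mem_univ, iff_true]
      exact (cdf_le_one ρ t).trans ha1
    have h2 : Iic a ∩ Icc (0:ℝ) 1 = Icc 0 1 := by
      ext t; simp only [mem_inter_iff, mem_Iic, mem_Icc]
      constructor
      · rintro ⟨h, h'⟩; exact h'
      · rintro h; exact ⟨h.2.trans ha1, h⟩
    rw [h1, h2]; simp

variable {X : Type*} [MeasurableSpace X] [StandardBorelSpace X]

omit [StandardBorelSpace X] in
theorem not_countable_of_nullSingleton (μ : Measure X) [IsProbabilityMeasure μ]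
    [NullSingletonClass μ] : ¬ Countable X := by
  intro h
  have h1 : μ univ = 0 := (Set.countable_univ).measure_zero μ
  rw [measure_univ] at h1
  exact one_ne_zero h1

theorem exists_uncountable_null (μ : Measure X) [IsProbabilityMeasure μ]
    [NullSingletonClass μ] : ∃ C : Set X, MeasurableSet C ∧ μ C = 0 ∧ ¬ Countable C := by
  have hX := not_countable_of_nullSingleton μ
  have hR : ¬ Countable (ℝ × ℝ) := by
    intro h
    have : Countable ℝ := Function.Injective.countable (f := fun x : ℝ => (x, (0:ℝ)))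
      (fun a b h => by simpa using h)
    exact Cardinal.not_countable_real (Set.countable_univ)
  let e : X ≃ᵐ ℝ × ℝ := PolishSpace.measurableEquivOfNotCountable hX hR
  let S : ℝ → Set X := fun t => e ⁻¹' ({t} ×ˢ univ)
  have hS : ∀ t, MeasurableSet (S t) := fun t =>
    e.measurable ((measurableSet_singleton t).prod MeasurableSet.univ)
  have hd : Pairwise (Disjoint on S) := by
    intro s t hst
    refine Set.disjoint_left.2 fun x hx hx' => hst ?_
    simp only [S, mem_preimage, mem_prod, mem_singleton_iff, mem_univ, and_true] at hx hx'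
    rw [← hx, ← hx']
  have hcount := Measure.countable_meas_pos_of_disjoint_iUnion (μ := μ) hS hd
  obtain ⟨t, ht⟩ : ∃ t, t ∉ {i | 0 < μ (S i)} := by
    by_contra hcon
    push Not at hcon
    have : {i | 0 < μ (S i)} = univ := eq_univ_of_forall hcon
    rw [this] at hcount
    exact Cardinal.not_countable_real hcount
  refine ⟨S t, hS t, ?_, ?_⟩
  · simpa using ht
  · intro hcc
    have : Countable ℝ := by
      refine Function.Injective.countable (f := fun u : ℝ => (⟨e.symm (t, u), by
        simp [S]⟩ : S t)) ?_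
      intro a b hab
      simpa using hab
    exact Cardinal.not_countable_real (Set.countable_univ)

theorem exists_equiv_unif (μ : Measure X) [IsProbabilityMeasure μ] [NullSingletonClass μ] :
    ∃ e : X ≃ᵐ ℝ, μ.map e = unif := by
  classical
  obtain ⟨C, hC, hC0, hCu⟩ := exists_uncountable_null μ
  set f := embeddingReal X with hf
  have hfe : MeasurableEmbedding f := measurableEmbedding_embeddingReal X
  set ρ := μ.map f with hρ
  have : IsProbabilityMeasure ρ := Measure.isProbabilityMeasure_map hfe.measurable.aemeasurable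
  have : NullSingletonClass ρ := by
    refine ⟨fun t => ?_⟩
    rw [hρ, Measure.map_apply hfe.measurable (measurableSet_singleton t)]
    have hsub : (f ⁻¹' {t}).Subsingleton := by
      intro a ha b hb
      exact hfe.injective (ha.trans hb.symm)
    exact hsub.measure_zero μ
  have hF : Measurable (cdf ρ) := (continuous_cdf ρ).measurable
  set G : X → ℝ := fun x => cdf ρ (f x) with hG
  have hGm : Measurable G := hF.comp hfe.measurable
  have hGmap : μ.map G = unif := by
    have : G = (cdf ρ) ∘ f := rfl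
    rw [this, ← Measure.map_map hF hfe.measurable, ← hρ, map_cdf_eq]
  set N₂ : Set ℝ := ⋃ r : ℚ, cdf ρ ⁻¹' {cdf ρ r} with hN₂
  have hN₂m : MeasurableSet N₂ :=
    MeasurableSet.iUnion fun r => hF (measurableSet_singleton _)
  have hN₂0 : ρ N₂ = 0 := by
    rw [hN₂, measure_iUnion_null_iff]
    intro r
    rw [← Measure.map_apply hF (measurableSet_singleton _), map_cdf_eq, measure_singleton]
  have hinj : InjOn (cdf ρ) N₂ᶜ := by
    have key : ∀ s t : ℝ, s < t → s ∉ N₂ → cdf ρ s ≠ cdf ρ t := by
      intro s t hst hs heq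
      obtain ⟨r, hr1, hr2⟩ := exists_rat_btwn hst
      apply hs
      rw [hN₂, mem_iUnion]
      refine ⟨r, ?_⟩
      simp only [mem_preimage, mem_singleton_iff]
      exact le_antisymm (monotone_cdf ρ hr1.le) (by rw [heq]; exact monotone_cdf ρ hr2.le)
    intro s hs t ht hst
    rcases lt_trichotomy s t with h | h | h
    · exact absurd hst (key s t h hs)
    · exact h
    · exact absurd hst.symm (key t s h ht)
  set M : Set X := (f ⁻¹' N₂ ∪ C)ᶜ with hM
  have hMm : MeasurableSet M := ((hfe.measurable hN₂m).union hC).compl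
  have hMc0 : μ Mᶜ = 0 := by
    rw [hM, compl_compl]
    refine measure_union_null ?_ hC0
    rw [← Measure.map_apply hfe.measurable hN₂m]; exact hN₂0
  have : StandardBorelSpace M := hMm.standardBorel
  let g : M → ℝ := fun x => G x
  have hgm : Measurable g := hGm.comp measurable_subtype_coe
  have hginj : Function.Injective g := by
    intro a b hab
    have ha : f a ∉ N₂ := fun h => a.2 (Or.inl h)
    have hb : f b ∉ N₂ := fun h => b.2 (Or.inl h)
    exact Subtype.ext (hfe.injective (hinj ha hb hab))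
  have hge : MeasurableEmbedding g := hgm.measurableEmbedding hginj
  have hDm : MeasurableSet (range g) := hge.measurableSet_range
  let e₁ : M ≃ᵐ range g := hge.equivRange
  have : StandardBorelSpace (Mᶜ : Set X) := hMm.compl.standardBorel
  have : StandardBorelSpace ((range g)ᶜ : Set ℝ) := hDm.compl.standardBorel
  have hMu : ¬ Countable (Mᶜ : Set X) := by
    intro h
    apply hCu
    have hsub : C ⊆ Mᶜ := by
      rw [hM, compl_compl]; exact subset_union_right
    exact (Set.countable_coe_iff.1 h).mono hsub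
  have hDu : ¬ Countable ((range g)ᶜ : Set ℝ) := by
    intro h
    have hsub : Ioi (1:ℝ) ⊆ (range g)ᶜ := by
      intro t ht hmem
      obtain ⟨x, hx⟩ := hmem
      have : G x ≤ 1 := cdf_le_one ρ _
      rw [mem_Ioi] at ht
      have h3 : g x = G x := rfl
      linarith
    have h2 : (Ioi (1:ℝ)).Countable := (Set.countable_coe_iff.1 h).mono hsub
    have h3 := h2.measure_zero volume
    simp at h3
  let e₂ : (Mᶜ : Set X) ≃ᵐ ((range g)ᶜ : Set ℝ) :=
    PolishSpace.measurableEquivOfNotCountable hMu hDu
  let e : X ≃ᵐ ℝ := (MeasurableEquiv.sumCompl hMm).symm.trans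
    ((MeasurableEquiv.sumCongr e₁ e₂).trans (MeasurableEquiv.sumCompl hDm))
  refine ⟨e, ?_⟩
  have heG : e =ᵐ[μ] G := by
    have : ∀ᵐ x ∂μ, x ∈ M := by
      rw [ae_iff]; exact hMc0
    filter_upwards [this] with x hx
    have h1 : (MeasurableEquiv.sumCompl hMm).symm x = Sum.inl ⟨x, hx⟩ := by
      rw [MeasurableEquiv.symm_apply_eq]
      rfl
    simp only [e, MeasurableEquiv.trans_apply, h1]
    have h2 : (MeasurableEquiv.sumCompl hDm) ((e₁.sumCongr e₂) (Sum.inl ⟨x, hx⟩)) =
        ((e₁ ⟨x, hx⟩ : range g) : ℝ) := rfl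
    rw [h2, MeasurableEmbedding.equivRange_apply]
  rw [Measure.map_congr heG, hGmap]

/-- Two standard Borel probability spaces without atoms are isomorphic through a genuine Borel
isomorphism. -/
theorem exists_equiv {Y : Type*} [MeasurableSpace Y] [StandardBorelSpace Y]
    (μ : Measure X) [IsProbabilityMeasure μ] [NullSingletonClass μ]
    (ν : Measure Y) [IsProbabilityMeasure ν] [NullSingletonClass ν] :
    ∃ e : X ≃ᵐ Y, MeasurePreserving e μ ν := by
  obtain ⟨e₁, h₁⟩ := exists_equiv_unif μ
  obtain ⟨e₂, h₂⟩ := exists_equiv_unif ν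
  refine ⟨e₁.trans e₂.symm, ⟨(e₁.trans e₂.symm).measurable, ?_⟩⟩
  have : (⇑(e₁.trans e₂.symm) : X → Y) = e₂.symm ∘ e₁ := rfl
  rw [this, ← Measure.map_map e₂.symm.measurable e₁.measurable, h₁, ← h₂]
  rw [Measure.map_map e₂.symm.measurable e₂.measurable]
  simp

/-- A measurable labelling by `{0, …, J}` whose level sets are small. -/
theorem exists_label (μ : Measure X) [IsProbabilityMeasure μ] [NullSingletonClass μ]
    (κ : ℝ) (hκ : 0 < κ) :
    ∃ (J : ℕ) (L : X → ℕ), Measurable L ∧ (∀ x, L x < J) ∧ ∀ j, μ.real (L ⁻¹' {j}) ≤ κ := by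
  obtain ⟨e, he⟩ := exists_equiv_unif μ
  obtain ⟨J, hJ⟩ := exists_nat_gt (1 / κ)
  have hJ0 : (0:ℝ) < J := lt_trans (by positivity) hJ
  have hJκ : 1 / (J:ℝ) ≤ κ := by
    rw [div_le_iff₀ hJ0]
    rw [div_lt_iff₀ hκ] at hJ
    linarith
  let ℓ : ℝ → ℕ := fun t => min ⌊(J:ℝ) * t⌋₊ J
  have hℓ : Measurable ℓ := by
    refine Measurable.min ?_ measurable_const
    exact Nat.measurable_floor.comp (measurable_const.mul measurable_id)
  refine ⟨J + 1, fun x => ℓ (e x), hℓ.comp e.measurable, fun x => ?_, fun j => ?_⟩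
  · exact Nat.lt_succ_of_le (min_le_right _ _)
  · have h1 : (fun x => ℓ (e x)) ⁻¹' {j} = e ⁻¹' (ℓ ⁻¹' {j}) := rfl
    rw [h1, measureReal_def, ← Measure.map_apply e.measurable (hℓ (measurableSet_singleton j)), he,
      Measure.restrict_apply (hℓ (measurableSet_singleton j))]
    have hsub : ℓ ⁻¹' {j} ∩ Icc (0:ℝ) 1 ⊆ Icc ((j:ℝ) / J) ((j + 1) / J) := by
      rintro t ⟨ht, ht0, ht1⟩
      simp only [mem_preimage, mem_singleton_iff, ℓ] at ht
      have h3 : (J:ℝ) * t ≤ J := by nlinarith
      have h4 : ⌊(J:ℝ) * t⌋₊ ≤ J := by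
        have := Nat.floor_le_floor h3
        rwa [Nat.floor_natCast] at this
      rw [min_eq_left h4] at ht
      have h5 : (⌊(J:ℝ) * t⌋₊ : ℝ) ≤ (J:ℝ) * t := Nat.floor_le (by positivity)
      have h6 := Nat.lt_floor_add_one ((J:ℝ) * t)
      rw [ht] at h5 h6
      constructor
      · rw [div_le_iff₀ hJ0]; linarith
      · rw [le_div_iff₀ hJ0]; linarith
    have h2 : volume (ℓ ⁻¹' {j} ∩ Icc (0:ℝ) 1) ≤ ENNReal.ofReal (1 / J) := by
      refine (measure_mono hsub).trans ?_
      rw [Real.volume_Icc]
      apply ENNReal.ofReal_le_ofReal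
      apply le_of_eq
      field_simp
      ring
    calc (volume (ℓ ⁻¹' {j} ∩ Icc (0:ℝ) 1)).toReal ≤ (ENNReal.ofReal (1 / J)).toReal :=
          ENNReal.toReal_mono ENNReal.ofReal_ne_top h2
      _ = 1 / J := ENNReal.toReal_ofReal (by positivity)
      _ ≤ κ := hJκ

/-- Sets of small positive measure. -/
theorem exists_small_set (μ : Measure X) [IsProbabilityMeasure μ] [NullSingletonClass μ]
    (κ : ℝ) (hκ : 0 < κ) :
    ∃ A : Set X, MeasurableSet A ∧ μ.real A ≤ κ ∧ μ A ≠ 0 := by
  obtain ⟨J, L, hL, hLJ, hLκ⟩ := exists_label μ κ hκ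
  by_contra hcon
  push Not at hcon
  have h0 : ∀ j, μ (L ⁻¹' {j}) = 0 := fun j =>
    hcon _ (hL (measurableSet_singleton j)) (hLκ j)
  have h1 : μ (⋃ j, L ⁻¹' {j}) = 0 := by
    rw [measure_iUnion_null_iff]; exact h0
  have h2 : (⋃ j, L ⁻¹' {j}) = univ := by
    ext x; simp
  rw [h2, measure_univ] at h1
  exact one_ne_zero h1

end Pool.Agent.Lib.MP_7561b1_an
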