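import Pool.Agent.Lib.MP_7561b1_an.SecondMoment

/-!
# Consequences of multiple mixing
-/

open MeasureTheory Set Filter
open scoped Topology ENNReal

namespace Pool.Agent.Lib.MP_7561b1_an

/-- The condition `n₀ = 0` and all gaps at least `N`. -/
def Gap {k : ℕ} (N : ℕ) (n : Fin (k + 1) → ℕ) : Prop :=
  n 0 = 0 ∧ ∀ i : Fin k, n i.castSucc + N ≤ n i.succ

theorem Gap.mono {k : ℕ} {N N' : ℕ} (h : N' ≤ N) {n : Fin (k + 1) → ℕ} (hn : Gap N n) :
    Gap N' n :=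
  ⟨hn.1, fun i => (Nat.add_le_add_left h _).trans (hn.2 i)⟩

theorem eventually_gap_of_exists {k : ℕ} {p : (Fin (k + 1) → ℕ) → Prop}
    (h : ∃ N, ∀ n, Gap N n → p n) : ∀ᶠ N in atTop, ∀ n, Gap N n → p n := by
  obtain ⟨N, hN⟩ := h
  filter_upwards [eventually_ge_atTop N] with N' hN' n hn
  exact hN n (hn.mono hN')

section

variable {X : Type*} [MeasurableSpace X] {μ : Measure X} [IsProbabilityMeasure μ] {T : X → X}

omit [IsProbabilityMeasure μ] in
theorem IsMultiplyMixing.eventually (hmix : IsMultiplyMixing T μ) {k : ℕ}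
    (A : Fin (k + 1) → Set X) (hA : ∀ i, MeasurableSet (A i)) {ε : ℝ} (hε : 0 < ε) :
    ∀ᶠ N in atTop, ∀ n : Fin (k + 1) → ℕ, Gap N n →
      |μ.real (⋂ i, T^[n i] ⁻¹' A i) - ∏ i, μ.real (A i)| < ε := by
  apply eventually_gap_of_exists
  obtain ⟨N, hN⟩ := hmix k A hA ε hε
  exact ⟨N, fun n hn => hN n hn.1 hn.2⟩

omit [IsProbabilityMeasure μ] in
theorem IsMultiplyMixing.two (hmix : IsMultiplyMixing T μ) {A B : Set X}
    (hA : MeasurableSet A) (hB : MeasurableSet B) :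
    Tendsto (fun n => μ.real (A ∩ T^[n] ⁻¹' B)) atTop (𝓝 (μ.real A * μ.real B)) := by
  rw [Metric.tendsto_atTop]
  intro ε hε
  obtain ⟨N, hN⟩ := hmix 1 ![A, B] (by
    intro i; fin_cases i
    · exact hA
    · exact hB) ε hε
  refine ⟨N, fun n hn => ?_⟩
  have := hN ![0, n] rfl (by
    intro i
    fin_cases i
    simpa using hn)
  have h1 : (⋂ i : Fin 2, T^[(![0, n] : Fin 2 → ℕ) i] ⁻¹' (![A, B] : Fin 2 → Set X) i) =
      A ∩ T^[n] ⁻¹' B := by
    ext x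
    simp [Fin.forall_fin_two]
  rw [h1] at this
  simpa [Real.dist_eq, Fin.prod_univ_two] using this

theorem avg_mixing (hT : MeasurePreserving T μ μ) (hmix : IsMultiplyMixing T μ) {k : ℕ}
    (U : Fin (k + 1) → Set X) (hU : ∀ i, MeasurableSet (U i)) {t : ℝ} (ht : 0 < t) :
    ∀ᶠ L : ℕ in atTop, ∀ᶠ N in atTop, ∀ n : Fin (k + 1) → ℕ, Gap N n →
      ∫ x, |∑ l ∈ Finset.range L, (1 / (L:ℝ)) * ind (⋂ i, T^[n i + l] ⁻¹' U i) x
        - ∏ i, μ.real (U i)| ∂μ ≤ t := by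
  set c : ℝ := ∏ i, μ.real (U i) with hc
  have hc0 : 0 ≤ c := Finset.prod_nonneg fun i _ => measureReal_nonneg
  have hc1 : c ≤ 1 := Finset.prod_le_one (fun i _ => measureReal_nonneg)
    fun i _ => measureReal_le_one
  -- choice of D
  have hprod : Tendsto (fun d => ∏ i, μ.real (U i ∩ T^[d] ⁻¹' U i)) atTop (𝓝 (c ^ 2)) := by
    have h1 : c ^ 2 = ∏ i, (μ.real (U i) * μ.real (U i)) := by
      rw [Finset.prod_mul_distrib, sq]
    rw [h1]
    exact tendsto_finsetProd _ fun i _ => hmix.two (hU i) (hU i)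
  have hε₁ : 0 < t ^ 2 / 6 := by positivity
  obtain ⟨D, hD⟩ : ∃ D, ∀ d ≥ D, |∏ i, μ.real (U i ∩ T^[d] ⁻¹' U i) - c ^ 2| < t ^ 2 / 6 / 2 := by
    rw [Metric.tendsto_atTop] at hprod
    obtain ⟨D, hD⟩ := hprod (t ^ 2 / 6 / 2) (by positivity)
    exact ⟨D, fun d hd => by simpa [Real.dist_eq] using hD d hd⟩
  have hL0 : ∀ᶠ L : ℕ in atTop, 2 * D * (1 / (L:ℝ)) ≤ t ^ 2 / 2 := by
    have h1 : Tendsto (fun L : ℕ => 2 * (D:ℝ) * (1 / (L:ℝ))) atTop (𝓝 (2 * D * 0)) :=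
      tendsto_const_nhds.mul tendsto_one_div_atTop_nhds_zero_nat
    rw [mul_zero] at h1
    have h2 := h1.eventually (Iic_mem_nhds (show (0:ℝ) < t ^ 2 / 2 by positivity))
    exact h2
  filter_upwards [hL0, eventually_gt_atTop 0] with L hL hLpos
  have hN1 := hmix.eventually U hU (ε := t ^ 2 / 6) hε₁
  have hN2 : ∀ᶠ N in atTop, ∀ d ∈ Finset.range L, ∀ n : Fin (k + 1) → ℕ, Gap N n →
      |μ.real (⋂ i, T^[n i] ⁻¹' (U i ∩ T^[d] ⁻¹' U i)) -
        ∏ i, μ.real (U i ∩ T^[d] ⁻¹' U i)| < t ^ 2 / 6 / 2 := by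
    rw [Filter.eventually_all_finset]
    intro d _
    exact hmix.eventually (fun i => U i ∩ T^[d] ⁻¹' U i)
      (fun i => (hU i).inter ((hT.measurable.iterate d) (hU i))) (by positivity)
  filter_upwards [hN1, hN2] with N h1 h2 n hn
  have hmeas : ∀ m : ℕ, Measurable (T^[m]) := fun m => hT.measurable.iterate m
  have hG : ∀ l, MeasurableSet (⋂ i, T^[n i + l] ⁻¹' U i) := fun l =>
    MeasurableSet.iInter fun i => hmeas _ (hU i)
  have hLp : (0:ℝ) < L := by exact_mod_cast hLpos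
  refine second_moment μ (Finset.range L) (fun _ => 1 / (L:ℝ)) (fun _ _ => by positivity)
    ?_ (1 / (L:ℝ)) (fun _ _ => le_rfl) (fun l => ⋂ i, T^[n i + l] ⁻¹' U i) hG c hc0 hc1
    (t ^ 2 / 6) hε₁.le D ?_ ?_ t ht ?_
  · rw [Finset.sum_const, Finset.card_range, nsmul_eq_mul]
    field_simp
  · intro l _
    have he : (⋂ i, T^[n i + l] ⁻¹' U i) = T^[l] ⁻¹' (⋂ i, T^[n i] ⁻¹' U i) := by
      ext x
      simp only [mem_iInter, mem_preimage, Function.iterate_add_apply]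
    rw [he, (hT.iterate l).measureReal_preimage
      (MeasurableSet.iInter fun i => hmeas _ (hU i)).nullMeasurableSet]
    exact (h1 n hn).le
  · intro l hl l' hl' hll
    set d := l' - l with hd
    have he : (⋂ i, T^[n i + l] ⁻¹' U i) ∩ (⋂ i, T^[n i + l'] ⁻¹' U i) =
        T^[l] ⁻¹' (⋂ i, T^[n i] ⁻¹' (U i ∩ T^[d] ⁻¹' U i)) := by
      ext x
      have hl2 : ∀ i, n i + l' = d + (n i + l) := fun i => by omega
      simp only [mem_inter_iff, mem_iInter, mem_preimage, hl2]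
      simp only [Function.iterate_add_apply]
      constructor
      · rintro ⟨h, h'⟩ i; exact ⟨h i, h' i⟩
      · intro h; exact ⟨fun i => (h i).1, fun i => (h i).2⟩
    rw [he, (hT.iterate l).measureReal_preimage
      (MeasurableSet.iInter fun i => hmeas _ ((hU i).inter (hmeas _ (hU i)))).nullMeasurableSet]
    have hdL : d ∈ Finset.range L := by
      rw [Finset.mem_range] at hl' ⊢; omega
    have h3 := h2 d hdL n hn
    have h4 := hD d (by omega)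
    calc |μ.real (⋂ i, T^[n i] ⁻¹' (U i ∩ T^[d] ⁻¹' U i)) - c ^ 2|
        = |(μ.real (⋂ i, T^[n i] ⁻¹' (U i ∩ T^[d] ⁻¹' U i)) -
            ∏ i, μ.real (U i ∩ T^[d] ⁻¹' U i)) +
            (∏ i, μ.real (U i ∩ T^[d] ⁻¹' U i) - c ^ 2)| := by ring_nf
      _ ≤ _ := abs_add_le _ _
      _ ≤ t ^ 2 / 6 / 2 + t ^ 2 / 6 / 2 := by linarith
      _ = t ^ 2 / 6 := by ring
  · linarith

end

end Pool.Agent.Lib.MP_7561b1_an
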