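import Pool.Agent.Lib.MP_7561b1_an.Iso
import Pool.Agent.Lib.MP_7561b1_an.Mixing

/-!
# Return-time function and near-invariant labels
-/

open MeasureTheory Set Filter
open scoped Topology ENNReal symmDiff

namespace Pool.Agent.Lib.MP_7561b1_an

variable {X : Type*} [MeasurableSpace X] [StandardBorelSpace X] {μ : Measure X}
  [IsProbabilityMeasure μ] [NullSingletonClass μ] {T : X ≃ᵐ X}

omit [StandardBorelSpace X] [IsProbabilityMeasure μ] [NullSingletonClass μ] in
theorem symm_iterate_iterate (n : ℕ) (x : X) : T.symm^[n] (T^[n] x) = x := by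
  have : Function.LeftInverse (T.symm : X → X) T := T.symm_apply_apply
  exact this.iterate n x

/-- The time since the last visit to a small set: `τ(Tx) = τ(x) + 1` off a small set. -/
theorem exists_clock (hmix : IsMultiplyMixing T μ) (hT : MeasurePreserving T μ μ) {δ : ℝ}
    (hδ : 0 < δ) :
    ∃ (τ : X → ℕ) (E : Set X), Measurable τ ∧ MeasurableSet E ∧ μ.real E ≤ δ ∧
      ∀ x ∉ E, τ (T x) = τ x + 1 := by
  classical
  obtain ⟨A, hA, hAδ, hA0⟩ := exists_small_set μ δ hδ
  have hsm : ∀ n, Measurable (T.symm^[n]) := fun n => T.symm.measurable.iterate n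
  set N : Set X := ⋂ n, (T.symm^[n] ⁻¹' A)ᶜ with hN
  have hNm : MeasurableSet N := MeasurableSet.iInter fun n => (hsm n hA).compl
  have hN0 : μ N = 0 := by
    have h1 := hmix.two hA hNm
    have h2 : ∀ n, A ∩ T^[n] ⁻¹' N = ∅ := by
      intro n
      ext x
      simp only [mem_inter_iff, mem_preimage, mem_empty_iff_false, iff_false, not_and]
      intro hx hx'
      rw [hN, mem_iInter] at hx'
      apply hx' n
      rw [mem_preimage, symm_iterate_iterate]
      exact hx
    simp only [h2, measureReal_empty] at h1
    have h3 := tendsto_nhds_unique h1 tendsto_const_nhds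
    have h4 : μ.real A ≠ 0 := by
      rw [measureReal_def]
      exact (ENNReal.toReal_ne_zero).2 ⟨hA0, measure_ne_top _ _⟩
    have h5 : μ.real N = 0 := (mul_eq_zero.1 h3).resolve_left h4
    exact (measureReal_eq_zero_iff).1 h5
  let p : X → ℕ → Prop := fun x n => T.symm^[n] x ∈ A ∨ x ∈ N
  have hp : ∀ x, ∃ n, p x n := by
    intro x
    by_cases hx : x ∈ N
    · exact ⟨0, Or.inr hx⟩
    · rw [hN, mem_iInter] at hx
      push Not at hx
      obtain ⟨n, hn⟩ := hx
      exact ⟨n, Or.inl (by simpa using hn)⟩
  refine ⟨fun x => Nat.find (hp x), T ⁻¹' A ∪ N, ?_, ?_, ?_, ?_⟩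
  · refine measurable_find hp fun n => ?_
    exact (hsm n hA).union hNm
  · exact (T.measurable hA).union hNm
  · calc μ.real (T ⁻¹' A ∪ N) ≤ μ.real (T ⁻¹' A) + μ.real N := measureReal_union_le _ _
      _ = μ.real A + 0 := by
        rw [hT.measureReal_preimage hA.nullMeasurableSet, measureReal_def μ N, hN0]; rfl
      _ ≤ δ := by linarith
  · intro x hx
    simp only [mem_union, mem_preimage, not_or] at hx
    obtain ⟨hxA, hxN⟩ := hx
    have hTN : T x ∉ N := by
      intro hTx
      apply hxN
      rw [hN, mem_iInter] at hTx ⊢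
      intro n
      have := hTx (n + 1)
      simpa [Function.iterate_succ_apply] using this
    rw [Nat.find_eq_iff]
    constructor
    · have h1 := Nat.find_spec (hp x)
      rcases h1 with h1 | h1
      · left
        rw [Function.iterate_succ_apply, MeasurableEquiv.symm_apply_apply]
        exact h1
      · exact absurd h1 hxN
    · intro m hm hpm
      rcases hpm with hpm | hpm
      · cases m with
        | zero => exact hxA hpm
        | succ m =>
          rw [Function.iterate_succ_apply, MeasurableEquiv.symm_apply_apply] at hpm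
          have hm' : m + 1 < Nat.find (hp x) + 1 := hm
          have := Nat.find_min (hp x) (m := m) (by omega)
          exact this (Or.inl hpm)
      · exact hTN hpm

/-- Near-invariant labels with small level sets. -/
theorem exists_lab (hmix : IsMultiplyMixing T μ) (hT : MeasurePreserving T μ μ) {δ κ : ℝ}
    (hδ : 0 < δ) (hκ : 0 < κ) :
    ∃ (J : ℕ) (lab : X → ℕ), Measurable lab ∧ (∀ x, lab x < J) ∧
      (∃ E, MeasurableSet E ∧ μ.real E ≤ δ ∧ ∀ x ∉ E, lab (T x) = lab x) ∧
      ∀ j, μ.real (lab ⁻¹' {j}) ≤ κ := by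
  obtain ⟨τ, E, hτ, hE, hEδ, hτE⟩ := exists_clock hmix hT hδ
  let g : X → X := fun x => T.symm^[τ x] x
  have hg : Measurable g := by
    have h1 : Measurable (fun q : ℕ × X => T.symm^[q.1] q.2) :=
      measurable_from_prod_countable_right fun n => T.symm.measurable.iterate n
    exact h1.comp (hτ.prodMk measurable_id)
  have hρ : IsProbabilityMeasure (μ.map g) := Measure.isProbabilityMeasure_map hg.aemeasurable
  have hρ0 : NullSingletonClass (μ.map g) := by
    refine ⟨fun z => ?_⟩
    rw [Measure.map_apply hg (measurableSet_singleton z)]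
    have hsub : g ⁻¹' {z} ⊆ ⋃ n : ℕ, {T^[n] z} := by
      intro x hx
      rw [mem_iUnion]
      refine ⟨τ x, ?_⟩
      have h1 : T.symm^[τ x] x = z := hx
      rw [mem_singleton_iff, ← h1]
      have : Function.LeftInverse (T : X → X) T.symm := T.apply_symm_apply
      exact (this.iterate (τ x) x).symm
    exact ((countable_iUnion fun n => countable_singleton _).mono hsub).measure_zero μ
  obtain ⟨J, L, hL, hLJ, hLκ⟩ := exists_label (μ.map g) κ hκ
  refine ⟨J, fun x => L (g x), hL.comp hg, fun x => hLJ _, ⟨E, hE, hEδ, fun x hx => ?_⟩, ?_⟩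
  · have : g (T x) = g x := by
      simp only [g]
      rw [hτE x hx, Function.iterate_succ_apply, MeasurableEquiv.symm_apply_apply]
    show L (g (T x)) = L (g x)
    rw [this]
  · intro j
    have h1 := hLκ j
    rw [measureReal_def, Measure.map_apply hg (hL (measurableSet_singleton j))] at h1
    exact h1

end Pool.Agent.Lib.MP_7561b1_an
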