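import Pool.Agent.Lib.MP_7561b1_an.Wild2

/-!
# Multiple mixing of the generic extension
-/

open MeasureTheory Set Filter
open scoped Topology ENNReal symmDiff

namespace Pool.Agent.Lib.MP_7561b1_an

variable {X Y : Type*} [MeasurableSpace X] [MeasurableSpace Y]
  {μ : Measure X} {ν : Measure Y} [IsProbabilityMeasure μ] [IsProbabilityMeasure ν]
  {T : X ≃ᵐ X}

omit [IsProbabilityMeasure μ] [IsProbabilityMeasure ν] in
theorem skew_iterate_fst (α : Cocycle μ ν) (n : ℕ) (z : X × Y) :
    ((skew T α)^[n] z).1 = T^[n] z.1 := by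
  induction n with
  | zero => rfl
  | succ n ih =>
    rw [Function.iterate_succ_apply', Function.iterate_succ_apply', ← ih]
    rfl

theorem iterate_invariant {Z : Type*} [MeasurableSpace Z] {m : Measure Z} [IsFiniteMeasure m]
    {S : Z → Z} (hS : MeasurePreserving S m m) {W : Set Z} (hW : MeasurableSet W) {δ : ℝ}
    (h : m.real ((S ⁻¹' W) ∆ W) ≤ δ) (l : ℕ) : m.real ((S^[l] ⁻¹' W) ∆ W) ≤ l * δ := by
  induction l with
  | zero => simp
  | succ l ih =>
    have h1 : m.real ((S^[l + 1] ⁻¹' W) ∆ (S^[l] ⁻¹' W)) = m.real ((S ⁻¹' W) ∆ W) := by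
      have he : (S^[l + 1] ⁻¹' W) ∆ (S^[l] ⁻¹' W) = S^[l] ⁻¹' ((S ⁻¹' W) ∆ W) := by
        rw [Set.preimage_symmDiff, ← Set.preimage_comp, ← Function.iterate_succ']
      rw [he, (hS.iterate l).measureReal_preimage
        ((hS.measurable hW).symmDiff hW).nullMeasurableSet]
    calc m.real ((S^[l + 1] ⁻¹' W) ∆ W)
        ≤ m.real ((S^[l + 1] ⁻¹' W) ∆ (S^[l] ⁻¹' W)) + m.real ((S^[l] ⁻¹' W) ∆ W) :=
          measureReal_symmDiff_le _
      _ ≤ δ + l * δ := by linarith
      _ = ((l + 1 : ℕ) : ℝ) * δ := by push_cast; ring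

/-- The main estimate. -/
theorem main_estimate (hT : MeasurePreserving T μ μ) (α : Cocycle μ ν) {k : ℕ}
    (A : Fin (k + 1) → Set (X × Y)) (hA : ∀ i, MeasurableSet (A i))
    {ι : Type} [Fintype ι] {p : X → ι} (hp : ∀ a, MeasurableSet (p ⁻¹' {a}))
    (W : Fin (k + 1) → ι → Set (X × Y)) (hW : ∀ i a, MeasurableSet (W i a))
    {δ : ℝ} (hWδ : ∀ i a, (μ.prod ν).real ((skew T α ⁻¹' W i a) ∆ W i a) ≤ δ)
    {ε₂ : ℝ} (hR : ∀ i, (μ.prod ν).real (A i ∆ {z | z ∈ W i (p z.1)}) ≤ ε₂)
    {L : ℕ} (hL : 0 < L) (n : Fin (k + 1) → ℕ)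
    {ε₃ : ℝ} (havg : ∀ a : Fin (k + 1) → ι, ∫ x, |∑ l ∈ Finset.range L, (1 / (L:ℝ)) *
      ind (⋂ i, T^[n i + l] ⁻¹' (p ⁻¹' {a i})) x - ∏ i, μ.real (p ⁻¹' {a i})| ∂μ ≤ ε₃)
    {ε₄ : ℝ} (hb : ∀ i, ∫ z, |∑ a, μ.real (p ⁻¹' {a}) * ind (W i a) z - (μ.prod ν).real (A i)|
      ∂(μ.prod ν) ≤ ε₄) :
    |(μ.prod ν).real (⋂ i, (skew T α)^[n i] ⁻¹' A i) - ∏ i, (μ.prod ν).real (A i)| ≤
      (k + 1) * ε₂ + (k + 1) * (Fintype.card ι * (L * δ)) +
        Fintype.card (Fin (k + 1) → ι) * ε₃ + (k + 1) * ε₄ := by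
  classical
  set m := μ.prod ν with hm
  set S := skew T α with hS
  have hSp : MeasurePreserving S m m := skew_preserving hT α
  have hSm : ∀ j, Measurable (S^[j]) := fun j => hSp.measurable.iterate j
  have hTm : ∀ j, Measurable (T^[j]) := fun j => T.measurable.iterate j
  have hLp : (0:ℝ) < L := by exact_mod_cast hL
  have hfst : ∀ j z, (S^[j] z).1 = T^[j] z.1 := fun j z => skew_iterate_fst α j z
  set Rs : Fin (k + 1) → Set (X × Y) := fun i => {z | z ∈ W i (p z.1)} with hRs
  have hRsm : ∀ i, MeasurableSet (Rs i) := by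
    intro i
    have : Rs i = ⋃ a, ((Prod.fst ⁻¹' (p ⁻¹' {a})) ∩ W i a) := by
      ext z; simp [hRs]
    rw [this]
    exact MeasurableSet.iUnion fun a => (measurable_fst (hp a)).inter (hW i a)
  -- step A
  have stepA : |m.real (⋂ i, S^[n i] ⁻¹' A i) - m.real (⋂ i, S^[n i] ⁻¹' Rs i)| ≤
      (k + 1) * ε₂ := by
    refine (abs_measureReal_iInter_sub_le m _ _).trans ?_
    calc ∑ i, m.real ((S^[n i] ⁻¹' A i) ∆ (S^[n i] ⁻¹' Rs i)) ≤ ∑ _i : Fin (k + 1), ε₂ := by
          refine Finset.sum_le_sum fun i _ => ?_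
          rw [← Set.preimage_symmDiff, (hSp.iterate (n i)).measureReal_preimage
            ((hA i).symmDiff (hRsm i)).nullMeasurableSet]
          exact hR i
      _ = (k + 1) * ε₂ := by
          rw [Finset.sum_const, Finset.card_univ, Fintype.card_fin, nsmul_eq_mul]
          push_cast; ring
  -- step B
  set P : ℕ → X × Y → (Fin (k + 1) → ι) := fun l z i => p (T^[n i + l] z.1) with hP
  set w : (Fin (k + 1) → ι) → Set (X × Y) := fun a => ⋂ i, S^[n i] ⁻¹' W i (a i) with hw
  have hwm : ∀ a, MeasurableSet (w a) := fun a =>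
    MeasurableSet.iInter fun i => hSm (n i) (hW i (a i))
  have stepB : ∀ l < L, |m.real (⋂ i, S^[n i] ⁻¹' Rs i) - m.real {z | z ∈ w (P l z)}| ≤
      (k + 1) * (Fintype.card ι * (L * δ)) := by
    intro l hl
    have h1 : m.real (⋂ i, S^[n i] ⁻¹' Rs i) = m.real (⋂ i, S^[n i + l] ⁻¹' Rs i) := by
      have he : (⋂ i, S^[n i + l] ⁻¹' Rs i) = S^[l] ⁻¹' (⋂ i, S^[n i] ⁻¹' Rs i) := by
        ext x
        simp only [mem_iInter, mem_preimage, Function.iterate_add_apply]
      rw [he, (hSp.iterate l).measureReal_preimage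
        (MeasurableSet.iInter fun i => hSm _ (hRsm i)).nullMeasurableSet]
    have h2 : {z | z ∈ w (P l z)} = ⋂ i, {z | S^[n i] z ∈ W i (p (T^[n i + l] z.1))} := by
      ext z
      simp only [hw, hP, mem_ofPred_eq, mem_iInter, mem_preimage]
    rw [h1, h2]
    refine (abs_measureReal_iInter_sub_le m _ _).trans ?_
    calc ∑ i, m.real ((S^[n i + l] ⁻¹' Rs i) ∆ {z | S^[n i] z ∈ W i (p (T^[n i + l] z.1))})
        ≤ ∑ _i : Fin (k + 1), (Fintype.card ι * (L * δ)) := by
          refine Finset.sum_le_sum fun i _ => ?_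
          calc _ ≤ m.real (⋃ a, S^[n i] ⁻¹' ((S^[l] ⁻¹' W i a) ∆ W i a)) := by
                refine measureReal_mono ?_ (measure_ne_top _ _)
                intro z hz
                rw [mem_iUnion]
                refine ⟨p (T^[n i + l] z.1), ?_⟩
                have e1 : (z ∈ S^[n i + l] ⁻¹' Rs i) ↔
                    S^[l] (S^[n i] z) ∈ W i (p (T^[n i + l] z.1)) := by
                  have e2 : S^[n i + l] z = S^[l] (S^[n i] z) := by
                    rw [← Function.iterate_add_apply, add_comm]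
                  show S^[n i + l] z ∈ W i (p (S^[n i + l] z).1) ↔ _
                  rw [hfst, e2]
                rcases hz with ⟨ha, hb'⟩ | ⟨ha, hb'⟩
                · exact Or.inl ⟨e1.1 ha, hb'⟩
                · exact Or.inr ⟨ha, fun h => hb' (e1.2 h)⟩
            _ ≤ ∑ a, m.real (S^[n i] ⁻¹' ((S^[l] ⁻¹' W i a) ∆ W i a)) :=
                measureReal_iUnion_fintype_le _
            _ ≤ ∑ _a : ι, L * δ := by
                refine Finset.sum_le_sum fun a _ => ?_
                have hδ0 : 0 ≤ δ := measureReal_nonneg.trans (hWδ i a)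
                rw [(hSp.iterate (n i)).measureReal_preimage
                  ((hSm l (hW i a)).symmDiff (hW i a)).nullMeasurableSet]
                refine (iterate_invariant hSp (hW i a) (hWδ i a) l).trans ?_
                have : (l:ℝ) ≤ L := by exact_mod_cast hl.le
                gcongr
            _ = Fintype.card ι * (L * δ) := by
                rw [Finset.sum_const, Finset.card_univ, nsmul_eq_mul]
      _ = (k + 1) * (Fintype.card ι * (L * δ)) := by
          rw [Finset.sum_const, Finset.card_univ, Fintype.card_fin, nsmul_eq_mul]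
          push_cast; ring
  have stepB' : |m.real (⋂ i, S^[n i] ⁻¹' Rs i) - ∑ l ∈ Finset.range L, (1 / (L:ℝ)) *
      m.real {z | z ∈ w (P l z)}| ≤ (k + 1) * (Fintype.card ι * (L * δ)) := by
    have h1 : m.real (⋂ i, S^[n i] ⁻¹' Rs i) = ∑ l ∈ Finset.range L, (1 / (L:ℝ)) *
        m.real (⋂ i, S^[n i] ⁻¹' Rs i) := by
      rw [Finset.sum_const, Finset.card_range, nsmul_eq_mul]
      field_simp
    rw [h1, ← Finset.sum_sub_distrib]
    refine (Finset.abs_sum_le_sum_abs _ _).trans ?_
    calc ∑ l ∈ Finset.range L, |1 / (L:ℝ) * m.real (⋂ i, S^[n i] ⁻¹' Rs i) -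
          1 / (L:ℝ) * m.real {z | z ∈ w (P l z)}|
        ≤ ∑ l ∈ Finset.range L, 1 / (L:ℝ) * ((k + 1) * (Fintype.card ι * (L * δ))) := by
          refine Finset.sum_le_sum fun l hl => ?_
          rw [← mul_sub, abs_mul, abs_of_pos (by positivity : (0:ℝ) < 1 / L)]
          exact mul_le_mul_of_nonneg_left (stepB l (Finset.mem_range.1 hl)) (by positivity)
      _ = (k + 1) * (Fintype.card ι * (L * δ)) := by
          rw [Finset.sum_const, Finset.card_range, nsmul_eq_mul]
          field_simp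
  -- step C
  set c : (Fin (k + 1) → ι) → ℝ := fun a => ∏ i, μ.real (p ⁻¹' {a i}) with hc
  have hPpre : ∀ l a, P l ⁻¹' {a} = Prod.fst ⁻¹' (⋂ i, T^[n i + l] ⁻¹' (p ⁻¹' {a i})) := by
    intro l a
    ext z
    simp [hP, funext_iff]
  have hIm : ∀ l (a : Fin (k + 1) → ι), MeasurableSet (⋂ i, T^[n i + l] ⁻¹' (p ⁻¹' {a i})) :=
    fun l a => MeasurableSet.iInter fun i => hTm _ (hp (a i))
  have hPm : ∀ l a, MeasurableSet (P l ⁻¹' {a}) := by
    intro l a
    rw [hPpre]
    exact measurable_fst (hIm l a)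
  have stepC : |∑ l ∈ Finset.range L, (1 / (L:ℝ)) * m.real {z | z ∈ w (P l z)} -
      ∑ a, c a * m.real (w a)| ≤ Fintype.card (Fin (k + 1) → ι) * ε₃ := by
    refine (avg_label m L P hPm w hwm c).trans ?_
    calc _ ≤ ∑ _a : Fin (k + 1) → ι, ε₃ := by
          refine Finset.sum_le_sum fun a _ => ?_
          have h1 : ∀ l (z : X × Y), ind (P l ⁻¹' {a}) z =
              ind (⋂ i, T^[n i + l] ⁻¹' (p ⁻¹' {a i})) z.1 := by
            intro l z
            rw [hPpre]
            rfl
          simp only [h1]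
          have h2 : ∫ z : X × Y, |∑ l ∈ Finset.range L, (1 / (L:ℝ)) *
              ind (⋂ i, T^[n i + l] ⁻¹' (p ⁻¹' {a i})) z.1 - c a| ∂m =
              ∫ x, |∑ l ∈ Finset.range L, (1 / (L:ℝ)) *
              ind (⋂ i, T^[n i + l] ⁻¹' (p ⁻¹' {a i})) x - c a| ∂μ := by
            have h3 : MeasurePreserving (Prod.fst : X × Y → X) m μ := measurePreserving_fst
            have h4 : Measurable fun x => |∑ l ∈ Finset.range L, (1 / (L:ℝ)) *
                ind (⋂ i, T^[n i + l] ⁻¹' (p ⁻¹' {a i})) x - c a| := by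
              refine Measurable.abs (Measurable.sub (Finset.measurable_sum _ fun l _ =>
                (measurable_ind (hIm l a)).const_mul _) measurable_const)
            rw [← h3.map_eq, integral_map h3.measurable.aemeasurable
              h4.aestronglyMeasurable]
          rw [h2]
          exact havg a
      _ = Fintype.card (Fin (k + 1) → ι) * ε₃ := by
          rw [Finset.sum_const, Finset.card_univ, nsmul_eq_mul]
  -- step D
  set b : Fin (k + 1) → X × Y → ℝ := fun i z => ∑ a, μ.real (p ⁻¹' {a}) * ind (W i a) z with hbdef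
  have hbm : ∀ i, Measurable (b i) := fun i =>
    Finset.measurable_sum _ fun a _ => (measurable_ind (hW i a)).const_mul _
  have hsum1 : ∑ a, μ.real (p ⁻¹' {a}) = 1 := by
    have : (⋃ a, p ⁻¹' {a}) = univ := by ext x; simp
    rw [← measureReal_iUnion_fintype, this]
    · simp
    · intro a b hab
      refine Set.disjoint_left.2 fun z hz hz' => hab ?_
      exact hz.symm.trans hz'
    · intro a; exact hp a
  have hb0 : ∀ i z, 0 ≤ b i z := fun i z =>
    Finset.sum_nonneg fun a _ => mul_nonneg measureReal_nonneg (ind_nonneg _ _)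
  have hb1 : ∀ i z, b i z ≤ 1 := by
    intro i z
    calc b i z ≤ ∑ a, μ.real (p ⁻¹' {a}) * 1 :=
          Finset.sum_le_sum fun a _ =>
            mul_le_mul_of_nonneg_left (ind_le_one _ _) measureReal_nonneg
      _ = 1 := by simp [hsum1]
  have hsumw : ∑ a, c a * m.real (w a) = ∫ z, ∏ i, b i (S^[n i] z) ∂m := by
    have h1 : ∀ z, ∏ i, b i (S^[n i] z) = ∑ a, c a * ind (w a) z := by
      intro z
      simp only [hbdef]
      rw [Finset.prod_univ_sum]
      rw [Fintype.piFinset_univ]
      refine Finset.sum_congr rfl fun a _ => ?_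
      rw [Finset.prod_mul_distrib]
      congr 1
      by_cases hz : z ∈ w a
      · rw [ind, Set.indicator_of_mem hz]
        apply Finset.prod_eq_one
        intro i _
        rw [hw, mem_iInter] at hz
        have hzi : S^[n i] z ∈ W i (a i) := hz i
        exact Set.indicator_of_mem hzi _
      · rw [ind, Set.indicator_of_notMem hz]
        rw [hw, mem_iInter] at hz
        push Not at hz
        obtain ⟨i, hi⟩ := hz
        have hzi : S^[n i] z ∉ W i (a i) := hi
        exact Finset.prod_eq_zero (Finset.mem_univ i) (Set.indicator_of_notMem hzi _)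
    simp_rw [h1]
    rw [integral_finsetSum _ fun a _ => (integrable_ind m (hwm a)).const_mul _]
    refine Finset.sum_congr rfl fun a _ => ?_
    rw [integral_const_mul, integral_ind m (hwm a)]
  have hbI : ∀ i, Integrable (fun z => |b i z - m.real (A i)|) m := by
    intro i
    refine Integrable.of_bound ((hbm i).sub measurable_const).abs.aestronglyMeasurable 1
      (Eventually.of_forall fun z => ?_)
    rw [Real.norm_eq_abs, abs_abs, abs_le]
    have h1 := hb0 i z
    have h2 := hb1 i z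
    have h3 : 0 ≤ m.real (A i) := measureReal_nonneg
    have h4 : m.real (A i) ≤ 1 := measureReal_le_one
    constructor <;> linarith
  have hbSI : ∀ i, Integrable (fun z => |b i (S^[n i] z) - m.real (A i)|) m := fun i =>
    (hSp.iterate (n i)).integrable_comp_of_integrable (hbI i)
  have hprodI : Integrable (fun z => ∏ i, b i (S^[n i] z)) m := by
    refine Integrable.of_bound (Finset.measurable_prod _ fun i _ =>
      (hbm i).comp (hSm (n i))).aestronglyMeasurable 1 (Eventually.of_forall fun z => ?_)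
    rw [Real.norm_eq_abs, abs_of_nonneg (Finset.prod_nonneg fun i _ => hb0 i _)]
    exact Finset.prod_le_one (fun i _ => hb0 i _) fun i _ => hb1 i _
  have stepD : |∑ a, c a * m.real (w a) - ∏ i, m.real (A i)| ≤ (k + 1) * ε₄ := by
    rw [hsumw]
    have h1 : ∫ z, ∏ i, b i (S^[n i] z) ∂m - ∏ i, m.real (A i) =
        ∫ z, (∏ i, b i (S^[n i] z) - ∏ i, m.real (A i)) ∂m := by
      rw [integral_sub hprodI (integrable_const _)]
      simp
    rw [h1]
    refine abs_integral_le_integral_abs.trans ?_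
    calc ∫ z, |∏ i, b i (S^[n i] z) - ∏ i, m.real (A i)| ∂m
        ≤ ∫ z, ∑ i, |b i (S^[n i] z) - m.real (A i)| ∂m := by
          refine integral_mono (hprodI.sub (integrable_const _)).abs
            (integrable_finsetSum _ fun i _ => hbSI i) fun z => ?_
          exact abs_prod_sub_prod_le _ _ _ (fun i _ => hb0 i _) (fun i _ => hb1 i _)
            (fun i _ => measureReal_nonneg) fun i _ => measureReal_le_one
      _ = ∑ i, ∫ z, |b i (S^[n i] z) - m.real (A i)| ∂m :=
          integral_finsetSum _ fun i _ => hbSI i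
      _ ≤ ∑ _i : Fin (k + 1), ε₄ := by
          refine Finset.sum_le_sum fun i _ => ?_
          have h2 : ∫ z, |b i (S^[n i] z) - m.real (A i)| ∂m = ∫ z, |b i z - m.real (A i)| ∂m := by
            have h3 := hSp.iterate (n i)
            have h4 : AEStronglyMeasurable (fun z => |b i z - m.real (A i)|)
                (Measure.map (S^[n i]) m) :=
              ((hbm i).sub measurable_const).abs.aestronglyMeasurable
            have h5 := integral_map h3.measurable.aemeasurable h4
            rw [h3.map_eq] at h5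
            exact h5.symm
          rw [h2]
          exact hb i
      _ = (k + 1) * ε₄ := by
          rw [Finset.sum_const, Finset.card_univ, Fintype.card_fin, nsmul_eq_mul]
          push_cast; ring
  have t1 := abs_sub_le (m.real (⋂ i, S^[n i] ⁻¹' A i)) (m.real (⋂ i, S^[n i] ⁻¹' Rs i))
    (∏ i, m.real (A i))
  have t2 := abs_sub_le (m.real (⋂ i, S^[n i] ⁻¹' Rs i))
    (∑ l ∈ Finset.range L, (1 / (L:ℝ)) * m.real {z | z ∈ w (P l z)}) (∏ i, m.real (A i))
  have t3 := abs_sub_le (∑ l ∈ Finset.range L, (1 / (L:ℝ)) * m.real {z | z ∈ w (P l z)})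
    (∑ a, c a * m.real (w a)) (∏ i, m.real (A i))
  linarith

end Pool.Agent.Lib.MP_7561b1_an
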