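import Pool.Agent.Lib.MP_7561b1_an.Approx

/-!
# Operations on cocycles, and topology of the space of cocycles
-/

open MeasureTheory Set Filter
open scoped Topology ENNReal symmDiff

namespace Pool.Agent.Lib.MP_7561b1_an

variable {X Y : Type*} [MeasurableSpace X] [MeasurableSpace Y] {μ : Measure X} {ν : Measure Y}

namespace Cocycle

/-- A constant cocycle. -/
def const (μ : Measure X) (e : Y ≃ᵐ Y) (he : MeasurePreserving e ν ν) : Cocycle μ ν where
  aut _ := e
  measurable_aut := e.measurable.comp measurable_snd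
  measurable_symm := e.symm.measurable.comp measurable_snd
  preserves _ := he

/-- The pointwise inverse. -/
def inv (α : Cocycle μ ν) : Cocycle μ ν where
  aut x := (α.aut x).symm
  measurable_aut := α.measurable_symm
  measurable_symm := α.measurable_aut
  preserves x := (α.preserves x).symm (α.aut x)

/-- The pointwise product `x ↦ β(x) ∘ α(x)`. -/
def mul (β α : Cocycle μ ν) : Cocycle μ ν where
  aut x := (α.aut x).trans (β.aut x)
  measurable_aut := β.measurable_aut.comp (measurable_fst.prodMk α.measurable_aut)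
  measurable_symm := α.measurable_symm.comp (measurable_fst.prodMk β.measurable_symm)
  preserves x := (β.preserves x).comp (α.preserves x)

/-- `x ↦ α(g x)`. -/
def comp (α : Cocycle μ ν) (g : X → X) (hg : Measurable g) : Cocycle μ ν where
  aut x := α.aut (g x)
  measurable_aut := α.measurable_aut.comp ((hg.comp measurable_fst).prodMk measurable_snd)
  measurable_symm := α.measurable_symm.comp ((hg.comp measurable_fst).prodMk measurable_snd)
  preserves x := α.preserves (g x)

/-- `x ↦ Γ_{τ(x)}(x)`. -/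
def ofNat (Γ : ℕ → Cocycle μ ν) (τ : X → ℕ) (hτ : Measurable τ) : Cocycle μ ν where
  aut x := (Γ (τ x)).aut x
  measurable_aut := by
    have h1 : Measurable (fun q : ℕ × (X × Y) => (Γ q.1).aut q.2.1 q.2.2) :=
      measurable_from_prod_countable_right fun n => (Γ n).measurable_aut
    exact h1.comp ((hτ.comp measurable_fst).prodMk measurable_id)
  measurable_symm := by
    have h1 : Measurable (fun q : ℕ × (X × Y) => ((Γ q.1).aut q.2.1).symm q.2.2) :=
      measurable_from_prod_countable_right fun n => (Γ n).measurable_symm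
    exact h1.comp ((hτ.comp measurable_fst).prodMk measurable_id)
  preserves x := (Γ (τ x)).preserves x

end Cocycle

/-- Iterates of an automorphism. -/
def iter (R : Y ≃ᵐ Y) : ℕ → (Y ≃ᵐ Y)
  | 0 => MeasurableEquiv.refl Y
  | n + 1 => (iter R n).trans R

theorem iter_apply (R : Y ≃ᵐ Y) (n : ℕ) (y : Y) : iter R n y = R^[n] y := by
  induction n with
  | zero => rfl
  | succ n ih =>
    rw [Function.iterate_succ_apply', ← ih]
    rfl

theorem iter_preserves (R : Y ≃ᵐ Y) (hR : MeasurePreserving R ν ν) (n : ℕ) :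
    MeasurePreserving (iter R n) ν ν := by
  induction n with
  | zero => exact MeasurePreserving.id ν
  | succ n ih => exact hR.comp ih

/-! ### The fibred maps -/

theorem skew_preserving [SFinite μ] [SFinite ν] {T : X ≃ᵐ X} (hT : MeasurePreserving T μ μ)
    (α : Cocycle μ ν) : MeasurePreserving (skew T α) (μ.prod ν) (μ.prod ν) :=
  hT.skew_product (g := fun x y => α.aut x y) α.measurable_aut
    (Eventually.of_forall fun x => (α.preserves x).map_eq)

/-- The fibred map `(x,y) ↦ (x, γ(x)y)`. -/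
def fmap (γ : Cocycle μ ν) (z : X × Y) : X × Y := (z.1, γ.aut z.1 z.2)

theorem fmap_preserving [SFinite μ] [SFinite ν] (γ : Cocycle μ ν) :
    MeasurePreserving (fmap γ) (μ.prod ν) (μ.prod ν) :=
  (MeasurePreserving.id μ).skew_product (g := fun x y => γ.aut x y) γ.measurable_aut
    (Eventually.of_forall fun x => (γ.preserves x).map_eq)

/-! ### The set of disagreement -/

/-- `{(x,y) : α(x)y ∈ B} ∆ {(x,y) : β(x)y ∈ B}`. -/
def dset (α β : Cocycle μ ν) (B : Set Y) : Set (X × Y) :=
  {z | α.aut z.1 z.2 ∈ B} ∆ {z | β.aut z.1 z.2 ∈ B}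

theorem measurableSet_dset (α β : Cocycle μ ν) {B : Set Y} (hB : MeasurableSet B) :
    MeasurableSet (dset α β B) :=
  (α.measurable_aut hB).symmDiff (β.measurable_aut hB)

theorem dset_section (α β : Cocycle μ ν) (B : Set Y) (x : X) :
    Prod.mk x ⁻¹' dset α β B = (α.aut x ⁻¹' B) ∆ (β.aut x ⁻¹' B) := rfl

theorem measurable_dist [SFinite ν] (α β : Cocycle μ ν) {B : Set Y} (hB : MeasurableSet B) :
    Measurable fun x => ν ((α.aut x ⁻¹' B) ∆ (β.aut x ⁻¹' B)) :=
  measurable_measure_prodMk_left (measurableSet_dset α β hB)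

theorem lintegral_dist_le [IsProbabilityMeasure μ] [IsProbabilityMeasure ν] (α β : Cocycle μ ν)
    {B : Set Y} (hB : MeasurableSet B) {ε : ℝ≥0∞}
    (h : μ {x | ε ≤ ν ((α.aut x ⁻¹' B) ∆ (β.aut x ⁻¹' B))} < ε) :
    ∫⁻ x, ν ((α.aut x ⁻¹' B) ∆ (β.aut x ⁻¹' B)) ∂μ ≤ 2 * ε := by
  set f : X → ℝ≥0∞ := fun x => ν ((α.aut x ⁻¹' B) ∆ (β.aut x ⁻¹' B)) with hf
  have hfm : Measurable f := measurable_dist α β hB
  have hS : MeasurableSet {x | ε ≤ f x} := measurableSet_le measurable_const hfm
  calc ∫⁻ x, f x ∂μ ≤ ∫⁻ x, ({x | ε ≤ f x}.indicator (fun _ => (1:ℝ≥0∞)) x + ε) ∂μ := by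
        apply lintegral_mono
        intro x
        by_cases hx : ε ≤ f x
        · have : x ∈ {x | ε ≤ f x} := hx
          simp only [this, Set.indicator_of_mem]
          exact (prob_le_one (μ := ν)).trans le_self_add
        · exact (not_le.1 hx).le.trans le_add_self
    _ = μ {x | ε ≤ f x} + ε := by
        rw [lintegral_add_right _ measurable_const, lintegral_indicator hS]
        simp
    _ ≤ ε + ε := by gcongr
    _ = 2 * ε := (two_mul ε).symm

/-! ### Topology -/

/-- A basic open set. -/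
def basicOpen (α : Cocycle μ ν) (B : Set Y) (ε : ℝ) : Set (Cocycle μ ν) :=
  {β | μ {x | ENNReal.ofReal ε ≤ ν ((α.aut x ⁻¹' B) ∆ (β.aut x ⁻¹' B))} < ENNReal.ofReal ε}

theorem isOpen_basicOpen (α : Cocycle μ ν) {B : Set Y} (hB : MeasurableSet B) {ε : ℝ}
    (hε : 0 < ε) : IsOpen (basicOpen α B ε) :=
  TopologicalSpace.isOpen_generateFrom_of_mem ⟨α, B, ε, hB, hε, rfl⟩

theorem mem_basicOpen_self (α : Cocycle μ ν) (B : Set Y) {ε : ℝ} (hε : 0 < ε) :
    α ∈ basicOpen α B ε := by
  have hε' : 0 < ENNReal.ofReal ε := ENNReal.ofReal_pos.2 hε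
  have : {x | ENNReal.ofReal ε ≤ ν ((α.aut x ⁻¹' B) ∆ (α.aut x ⁻¹' B))} = ∅ := by
    ext x
    simp [hε]
  simp only [basicOpen, mem_ofPred_eq, this, measure_empty, hε']

/-- Open sets contain all cocycles which agree with a given element off a small set. -/
theorem exists_radius {U : Set (Cocycle μ ν)} (hU : IsOpen U) {α : Cocycle μ ν} (hα : α ∈ U) :
    ∃ ε : ℝ≥0∞, 0 < ε ∧ ∀ (β : Cocycle μ ν) (E : Set X), μ E < ε →
      (∀ x ∉ E, β.aut x = α.aut x) → β ∈ U := by
  induction hU with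
  | basic s hs =>
    obtain ⟨α₀, B, ε, hB, hε, rfl⟩ := hs
    refine ⟨ENNReal.ofReal ε -
      μ {x | ENNReal.ofReal ε ≤ ν ((α₀.aut x ⁻¹' B) ∆ (α.aut x ⁻¹' B))}, ?_, ?_⟩
    · exact tsub_pos_of_lt hα
    · intro β E hE hβ
      have hsub : {x | ENNReal.ofReal ε ≤ ν ((α₀.aut x ⁻¹' B) ∆ (β.aut x ⁻¹' B))} ⊆
          {x | ENNReal.ofReal ε ≤ ν ((α₀.aut x ⁻¹' B) ∆ (α.aut x ⁻¹' B))} ∪ E := by
        intro x hx
        by_cases hxE : x ∈ E
        · exact Or.inr hxE
        · left
          simp only [mem_ofPred_eq] at hx ⊢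
          rwa [hβ x hxE] at hx
      calc μ {x | ENNReal.ofReal ε ≤ ν ((α₀.aut x ⁻¹' B) ∆ (β.aut x ⁻¹' B))}
          ≤ _ := (measure_mono hsub).trans (measure_union_le _ _)
        _ < ENNReal.ofReal ε := lt_tsub_iff_left.1 hE
  | univ => exact ⟨1, one_pos, fun _ _ _ _ => mem_univ _⟩
  | inter s t _ _ hs ht =>
    obtain ⟨ε₁, h1, h1'⟩ := hs hα.1
    obtain ⟨ε₂, h2, h2'⟩ := ht hα.2
    exact ⟨min ε₁ ε₂, lt_min h1 h2, fun β E hE hβ =>
      ⟨h1' β E (hE.trans_le (min_le_left _ _)) hβ, h2' β E (hE.trans_le (min_le_right _ _)) hβ⟩⟩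
  | sUnion S _ h =>
    obtain ⟨s, hs, hαs⟩ := hα
    obtain ⟨ε, hε, h'⟩ := h s hs hαs
    exact ⟨ε, hε, fun β E hE hβ => ⟨s, hs, h' β E hE hβ⟩⟩

/-- Open sets are saturated. -/
theorem mem_of_ae_eq {U : Set (Cocycle μ ν)} (hU : IsOpen U) {α β : Cocycle μ ν} (hα : α ∈ U)
    (hαβ : (aeSetoid μ ν) α β) : β ∈ U := by
  induction hU with
  | basic s hs =>
    obtain ⟨α₀, B, ε, hB, hε, rfl⟩ := hs
    have h : μ {x | ENNReal.ofReal ε ≤ ν ((α₀.aut x ⁻¹' B) ∆ (β.aut x ⁻¹' B))} =
        μ {x | ENNReal.ofReal ε ≤ ν ((α₀.aut x ⁻¹' B) ∆ (α.aut x ⁻¹' B))} := by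
      apply measure_congr
      have hae : ∀ᵐ x ∂μ, ∀ᵐ y ∂ν, α.aut x y = β.aut x y := hαβ
      filter_upwards [hae] with x hx
      have h1 : ν ((α₀.aut x ⁻¹' B) ∆ (β.aut x ⁻¹' B)) =
          ν ((α₀.aut x ⁻¹' B) ∆ (α.aut x ⁻¹' B)) := by
        apply measure_congr
        apply Filter.EventuallyEq.symmDiff (Filter.EventuallyEq.refl _ _)
        filter_upwards [hx] with y hy
        exact propext ⟨fun h => by
          have h' : β.aut x y ∈ B := h
          rw [← hy] at h'
          exact h', fun h => by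
          have h' : α.aut x y ∈ B := h
          rw [hy] at h'
          exact h'⟩
      exact propext ⟨fun h => by
        have h' : ENNReal.ofReal ε ≤ ν ((α₀.aut x ⁻¹' B) ∆ (β.aut x ⁻¹' B)) := h
        rw [h1] at h'
        exact h', fun h => by
        have h' : ENNReal.ofReal ε ≤ ν ((α₀.aut x ⁻¹' B) ∆ (α.aut x ⁻¹' B)) := h
        rw [← h1] at h'
        exact h'⟩
    have hα' : μ {x | ENNReal.ofReal ε ≤ ν ((α₀.aut x ⁻¹' B) ∆ (α.aut x ⁻¹' B))} <
      ENNReal.ofReal ε := hα
    rw [← h] at hα'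
    exact hα'
  | univ => exact mem_univ _
  | inter s t _ _ hs ht => exact ⟨hs hα.1, ht hα.2⟩
  | sUnion S _ h =>
    obtain ⟨s, hs, hαs⟩ := hα
    exact ⟨s, hs, h s hs hαs⟩

theorem isOpen_image_toClass {U : Set (Cocycle μ ν)} (hU : IsOpen U) :
    IsOpen (Cocycle.toClass '' U : Set (CocycleClass μ ν)) := by
  rw [isOpen_coinduced]
  have : (Cocycle.toClass ⁻¹' (Cocycle.toClass '' U) : Set (Cocycle μ ν)) = U := by
    apply Subset.antisymm
    · rintro β ⟨α, hα, hαβ⟩
      exact mem_of_ae_eq hU hα (Quotient.exact hαβ)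
    · exact subset_preimage_image _ _
  rw [this]
  exact hU

theorem continuous_toClass : Continuous (Cocycle.toClass : Cocycle μ ν → CocycleClass μ ν) :=
  continuous_coinduced_rng

theorem surjective_toClass :
    Function.Surjective (Cocycle.toClass : Cocycle μ ν → CocycleClass μ ν) :=
  Quotient.mk_surjective

/-- A property of cocycles which holds on a countable intersection of dense open sets holds for
the generic class. -/
theorem residual_of {ι : Type*} [Countable ι] {P : Cocycle μ ν → Prop}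
    (W : ι → Set (Cocycle μ ν)) (hopen : ∀ n, IsOpen (W n)) (hdense : ∀ n, Dense (W n))
    (h : ∀ α, (∀ n, α ∈ W n) → P α) :
    ∀ᶠ c in residual (CocycleClass μ ν), ∀ α : Cocycle μ ν, α.toClass = c → P α := by
  have h1 : ∀ᶠ c in residual (CocycleClass μ ν), ∀ n, c ∈ Cocycle.toClass '' (W n) := by
    rw [eventually_countable_forall]
    intro n
    exact residual_of_dense_open (isOpen_image_toClass (hopen n))
      (surjective_toClass.denseRange.dense_image continuous_toClass (hdense n))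
  filter_upwards [h1] with c hc α hα
  apply h
  intro n
  obtain ⟨β, hβ, hβc⟩ := hc n
  exact mem_of_ae_eq (hopen n) hβ (Quotient.exact (hβc.trans hα.symm))

/-- The skew product depends continuously on the cocycle. -/
theorem exists_open_near [IsProbabilityMeasure μ] [IsProbabilityMeasure ν] {T : X ≃ᵐ X}
    (hT : MeasurePreserving T μ μ) (β : Cocycle μ ν) {κ : Type} [Fintype κ]
    (W : κ → Set (X × Y)) (hW : ∀ i, MeasurableSet (W i)) {δ : ℝ} (hδ : 0 < δ) :
    ∃ V : Set (Cocycle μ ν), IsOpen V ∧ β ∈ V ∧ ∀ α ∈ V, ∀ i,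
      (μ.prod ν).real ((skew T α ⁻¹' W i) ∆ (skew T β ⁻¹' W i)) ≤ δ := by
  classical
  obtain ⟨ι, hι, p, Q, hp, hQ, hlt⟩ :=
    exists_fib_approx (μ.prod ν) W hW (show 0 < δ / 3 by positivity)
  have hcard : (0:ℝ) < Fintype.card ι + 1 := by positivity
  set ε : ℝ := δ / (6 * (Fintype.card ι + 1)) with hε
  have hε0 : 0 < ε := by positivity
  refine ⟨⋂ i, ⋂ a, basicOpen β (Q i a) ε, ?_, ?_, ?_⟩
  · exact isOpen_iInter_of_finite fun i => isOpen_iInter_of_finite fun a =>
      isOpen_basicOpen β (hQ i a) hε0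
  · simp only [mem_iInter]
    exact fun i a => mem_basicOpen_self β _ hε0
  · intro α hα i
    simp only [mem_iInter] at hα
    have hF : MeasurableSet (fib p (Q i)) := measurableSet_fib hp (hQ i)
    have hpα := skew_preserving hT α
    have hpβ := skew_preserving hT β
    -- the middle term
    have hmid : (μ.prod ν) ((skew T α ⁻¹' fib p (Q i)) ∆ (skew T β ⁻¹' fib p (Q i))) ≤
        ENNReal.ofReal (δ / 3) := by
      rw [Measure.prod_apply ((hpα.measurable hF).symmDiff (hpβ.measurable hF))]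
      have hsec : ∀ x, ν (Prod.mk x ⁻¹'
          ((skew T α ⁻¹' fib p (Q i)) ∆ (skew T β ⁻¹' fib p (Q i)))) ≤
          ∑ a, ν ((β.aut x ⁻¹' Q i a) ∆ (α.aut x ⁻¹' Q i a)) := by
        intro x
        have h1 : Prod.mk x ⁻¹' ((skew T α ⁻¹' fib p (Q i)) ∆ (skew T β ⁻¹' fib p (Q i))) =
            (β.aut x ⁻¹' Q i (p (T x))) ∆ (α.aut x ⁻¹' Q i (p (T x))) := by
          rw [symmDiff_comm]
          rfl
        rw [h1]
        exact Finset.single_le_sum (f := fun a => ν ((β.aut x ⁻¹' Q i a) ∆ (α.aut x ⁻¹' Q i a)))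
          (fun _ _ => zero_le) (Finset.mem_univ _)
      calc _ ≤ ∫⁻ x, ∑ a, ν ((β.aut x ⁻¹' Q i a) ∆ (α.aut x ⁻¹' Q i a)) ∂μ :=
            lintegral_mono hsec
        _ = ∑ a, ∫⁻ x, ν ((β.aut x ⁻¹' Q i a) ∆ (α.aut x ⁻¹' Q i a)) ∂μ :=
            lintegral_finsetSum _ fun a _ => measurable_dist β α (hQ i a)
        _ ≤ ∑ _a : ι, 2 * ENNReal.ofReal ε :=
            Finset.sum_le_sum fun a _ => lintegral_dist_le β α (hQ i a) (hα i a)
        _ = ENNReal.ofReal (Fintype.card ι * (2 * ε)) := by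
            rw [Finset.sum_const, Finset.card_univ, nsmul_eq_mul,
              ENNReal.ofReal_mul (by positivity), ENNReal.ofReal_mul (by positivity)]
            simp
        _ ≤ ENNReal.ofReal (δ / 3) := by
            apply ENNReal.ofReal_le_ofReal
            rw [hε]
            have : (Fintype.card ι : ℝ) * (2 * (δ / (6 * (Fintype.card ι + 1)))) =
                (δ / 3) * (Fintype.card ι / (Fintype.card ι + 1)) := by
              field_simp
              ring
            rw [this]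
            have h2 : (Fintype.card ι : ℝ) / (Fintype.card ι + 1) ≤ 1 := by
              rw [div_le_one hcard]; linarith
            have : 0 ≤ δ / 3 := by positivity
            nlinarith
    have hmid' : (μ.prod ν).real ((skew T α ⁻¹' fib p (Q i)) ∆ (skew T β ⁻¹' fib p (Q i))) ≤
        δ / 3 := by
      rw [measureReal_def]
      exact ENNReal.toReal_le_of_le_ofReal (by positivity) hmid
    have hleft : ∀ γ : Cocycle μ ν,
        (μ.prod ν).real ((skew T γ ⁻¹' W i) ∆ (skew T γ ⁻¹' fib p (Q i))) < δ / 3 := by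
      intro γ
      rw [← Set.preimage_symmDiff,
        (skew_preserving hT γ).measureReal_preimage ((hW i).symmDiff hF).nullMeasurableSet]
      exact hlt i
    have hA := hleft α
    have hB := hleft β
    rw [symmDiff_comm] at hB
    calc (μ.prod ν).real ((skew T α ⁻¹' W i) ∆ (skew T β ⁻¹' W i))
        ≤ (μ.prod ν).real ((skew T α ⁻¹' W i) ∆ (skew T α ⁻¹' fib p (Q i))) +
          (μ.prod ν).real ((skew T α ⁻¹' fib p (Q i)) ∆ (skew T β ⁻¹' W i)) :=
          measureReal_symmDiff_le _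
      _ ≤ (μ.prod ν).real ((skew T α ⁻¹' W i) ∆ (skew T α ⁻¹' fib p (Q i))) +
          ((μ.prod ν).real ((skew T α ⁻¹' fib p (Q i)) ∆ (skew T β ⁻¹' fib p (Q i))) +
          (μ.prod ν).real ((skew T β ⁻¹' fib p (Q i)) ∆ (skew T β ⁻¹' W i))) := by
          gcongr
          exact measureReal_symmDiff_le _
      _ ≤ δ := by linarith

end Pool.Agent.Lib.MP_7561b1_an
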