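import Pool.Agent.Lib.MP_7561b1_an.Defs

/-!
# A weighted second moment (van der Corput free) averaging lemma
-/

open MeasureTheory Set Filter
open scoped Topology ENNReal

namespace Pool.Agent.Lib.MP_7561b1_an

section

variable {Z : Type*} [MeasurableSpace Z] (P : Measure Z) [IsProbabilityMeasure P]

/-- The real indicator function. -/
noncomputable abbrev ind (A : Set Z) (z : Z) : ℝ := A.indicator (fun _ => (1:ℝ)) z

omit [MeasurableSpace Z] in
theorem ind_nonneg (A : Set Z) (z : Z) : 0 ≤ ind A z :=
  Set.indicator_nonneg (fun _ _ => zero_le_one) z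

omit [MeasurableSpace Z] in
theorem ind_le_one (A : Set Z) (z : Z) : ind A z ≤ 1 :=
  Set.indicator_le_self' (fun _ _ => zero_le_one) z

omit [MeasurableSpace Z] in
theorem ind_mul (A B : Set Z) (z : Z) : ind A z * ind B z = ind (A ∩ B) z := by
  by_cases h1 : z ∈ A <;> by_cases h2 : z ∈ B <;> simp [h1, h2]

theorem measurable_ind {A : Set Z} (hA : MeasurableSet A) : Measurable (ind A) :=
  measurable_const.indicator hA

theorem integrable_ind {A : Set Z} (hA : MeasurableSet A) : Integrable (ind A) P :=
  (integrable_const (1:ℝ)).indicator hA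

omit [IsProbabilityMeasure P] in
theorem integral_ind {A : Set Z} (hA : MeasurableSet A) : ∫ z, ind A z ∂P = P.real A := by
  simp only [ind]
  rw [integral_indicator hA]
  simp

theorem second_moment (s : Finset ℕ) (q : ℕ → ℝ) (hq : ∀ l ∈ s, 0 ≤ q l)
    (hs : ∑ l ∈ s, q l = 1) (κ : ℝ) (hκ : ∀ l ∈ s, q l ≤ κ)
    (G : ℕ → Set Z) (hG : ∀ l, MeasurableSet (G l)) (c : ℝ) (hc0 : 0 ≤ c) (hc1 : c ≤ 1)
    (ε₁ : ℝ) (hε₁ : 0 ≤ ε₁) (D : ℕ)
    (h1 : ∀ l ∈ s, |P.real (G l) - c| ≤ ε₁)
    (h2 : ∀ l ∈ s, ∀ l' ∈ s, l + D ≤ l' → |P.real (G l ∩ G l') - c ^ 2| ≤ ε₁)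
    (t : ℝ) (ht : 0 < t) (hbound : 2 * D * κ + 3 * ε₁ ≤ t ^ 2) :
    ∫ z, |∑ l ∈ s, q l * ind (G l) z - c| ∂P ≤ t := by
  set u : ℕ → Z → ℝ := fun l z => ind (G l) z - c with hu
  have hui : ∀ l, Integrable (u l) P := fun l =>
    (integrable_ind P (hG l)).sub (integrable_const c)
  have huu : ∀ l l' z, u l z * u l' z =
      ind (G l ∩ G l') z - c * ind (G l) z - c * ind (G l') z + c ^ 2 := by
    intro l l' z
    simp only [hu, ← ind_mul]
    ring
  have huui : ∀ l l', Integrable (fun z => u l z * u l' z) P := by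
    intro l l'
    have : (fun z => u l z * u l' z) = fun z =>
      ind (G l ∩ G l') z - c * ind (G l) z - c * ind (G l') z + c ^ 2 := funext (huu l l')
    rw [this]
    exact (((integrable_ind P ((hG l).inter (hG l'))).sub
      ((integrable_ind P (hG l)).const_mul c)).sub
      ((integrable_ind P (hG l')).const_mul c)).add (integrable_const _)
  have huint : ∀ l l', ∫ z, u l z * u l' z ∂P =
      P.real (G l ∩ G l') - c * P.real (G l) - c * P.real (G l') + c ^ 2 := by
    intro l l'
    simp_rw [huu l l']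
    rw [integral_add, integral_sub, integral_sub, integral_const_mul, integral_const_mul,
      integral_ind P ((hG l).inter (hG l')), integral_ind P (hG l), integral_ind P (hG l')]
    · simp
    · exact integrable_ind P ((hG l).inter (hG l'))
    · exact (integrable_ind P (hG l)).const_mul c
    · exact (integrable_ind P ((hG l).inter (hG l'))).sub
        ((integrable_ind P (hG l)).const_mul c)
    · exact (integrable_ind P (hG l')).const_mul c
    · exact ((integrable_ind P ((hG l).inter (hG l'))).sub
        ((integrable_ind P (hG l)).const_mul c)).sub ((integrable_ind P (hG l')).const_mul c)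
    · exact integrable_const _
  have hule : ∀ l z, |u l z| ≤ 1 := by
    intro l z
    have h0 := ind_nonneg (G l) z
    have h1 := ind_le_one (G l) z
    rw [abs_le]; simp only [hu]; constructor <;> linarith
  have huabs : ∀ l l', ∫ z, u l z * u l' z ∂P ≤ 1 := by
    intro l l'
    calc ∫ z, u l z * u l' z ∂P ≤ ∫ _, (1:ℝ) ∂P := by
          refine integral_mono (huui l l') (integrable_const _) fun z => ?_
          have h1 := hule l z
          have h2 := hule l' z
          calc u l z * u l' z ≤ |u l z * u l' z| := le_abs_self _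
            _ = |u l z| * |u l' z| := abs_mul _ _
            _ ≤ 1 * 1 := mul_le_mul h1 h2 (abs_nonneg _) zero_le_one
            _ = 1 := one_mul 1
      _ = 1 := by simp
  -- the far terms
  have hfar : ∀ l ∈ s, ∀ l' ∈ s, (l + D ≤ l' ∨ l' + D ≤ l) →
      ∫ z, u l z * u l' z ∂P ≤ 3 * ε₁ := by
    intro l hl l' hl' hd
    rw [huint]
    have h12 : |P.real (G l ∩ G l') - c ^ 2| ≤ ε₁ := by
      rcases hd with hd | hd
      · exact h2 l hl l' hl' hd
      · rw [inter_comm]; exact h2 l' hl' l hl hd
    have ha := abs_le.1 (h1 l hl)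
    have hb := abs_le.1 (h1 l' hl')
    have hcc := abs_le.1 h12
    have e1 : -(c * (P.real (G l) - c)) ≤ ε₁ := by
      have : -(P.real (G l) - c) ≤ ε₁ := by linarith [ha.1]
      nlinarith
    have e2 : -(c * (P.real (G l') - c)) ≤ ε₁ := by
      have : -(P.real (G l') - c) ≤ ε₁ := by linarith [hb.1]
      nlinarith
    nlinarith [hcc.2]
  set h : Z → ℝ := fun z => ∑ l ∈ s, q l * u l z with hh
  have hhe : ∀ z, h z = ∑ l ∈ s, q l * ind (G l) z - c := by
    intro z
    simp only [hh, hu, mul_sub, Finset.sum_sub_distrib, ← Finset.sum_mul, hs, one_mul]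
  have hhi : Integrable h P := by
    refine integrable_finsetSum _ fun l _ => (hui l).const_mul (q l)
  have hsq : ∀ z, h z ^ 2 = ∑ l ∈ s, ∑ l' ∈ s, q l * q l' * (u l z * u l' z) := by
    intro z
    rw [sq]
    simp only [hh]
    rw [Finset.sum_mul_sum]
    refine Finset.sum_congr rfl fun l _ => Finset.sum_congr rfl fun l' _ => ?_
    ring
  have hsqi : Integrable (fun z => h z ^ 2) P := by
    simp_rw [hsq]
    exact integrable_finsetSum _ fun l _ => integrable_finsetSum _ fun l' _ =>
      (huui l l').const_mul _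
  have hsqint : ∫ z, h z ^ 2 ∂P =
      ∑ l ∈ s, ∑ l' ∈ s, q l * q l' * ∫ z, u l z * u l' z ∂P := by
    simp_rw [hsq]
    rw [integral_finsetSum _ fun l _ => integrable_finsetSum _ fun l' _ =>
      (huui l l').const_mul _]
    refine Finset.sum_congr rfl fun l _ => ?_
    rw [integral_finsetSum _ fun l' _ => (huui l l').const_mul _]
    refine Finset.sum_congr rfl fun l' _ => ?_
    rw [integral_const_mul]
  have hκ0 : s.Nonempty → 0 ≤ κ := by
    rintro ⟨l, hl⟩; exact (hq l hl).trans (hκ l hl)
  have hsqle : ∫ z, h z ^ 2 ∂P ≤ 2 * D * κ + 3 * ε₁ := by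
    rw [hsqint]
    have hrow : ∀ l ∈ s, ∑ l' ∈ s, q l * q l' * ∫ z, u l z * u l' z ∂P
        ≤ q l * (2 * D * κ + 3 * ε₁) := by
      intro l hl
      have hκ0' := hκ0 ⟨l, hl⟩
      have hterm : ∀ l' ∈ s, q l * q l' * ∫ z, u l z * u l' z ∂P ≤
          q l * (q l' * (3 * ε₁)) +
            q l * (if l' ∈ Finset.Ico (l - D) (l + D) then κ else 0) := by
        intro l' hl'
        have hqq : 0 ≤ q l * q l' := mul_nonneg (hq l hl) (hq l' hl')
        by_cases hd : l + D ≤ l' ∨ l' + D ≤ l
        · have h3 := mul_le_mul_of_nonneg_left (hfar l hl l' hl' hd) hqq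
          have h4 : 0 ≤ q l * (if l' ∈ Finset.Ico (l - D) (l + D) then κ else 0) := by
            apply mul_nonneg (hq l hl); split_ifs
            · exact hκ0'
            · exact le_rfl
          nlinarith
        · have hmem : l' ∈ Finset.Ico (l - D) (l + D) := by
            rw [Finset.mem_Ico]; omega
          rw [if_pos hmem]
          have h3 := mul_le_mul_of_nonneg_left (huabs l l') hqq
          have h4 : q l * q l' ≤ q l * κ := mul_le_mul_of_nonneg_left (hκ l' hl') (hq l hl)
          have h5 : 0 ≤ q l * (q l' * (3 * ε₁)) :=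
            mul_nonneg (hq l hl) (mul_nonneg (hq l' hl') (by linarith))
          linarith
      calc ∑ l' ∈ s, q l * q l' * ∫ z, u l z * u l' z ∂P
          ≤ ∑ l' ∈ s, (q l * (q l' * (3 * ε₁)) +
            q l * (if l' ∈ Finset.Ico (l - D) (l + D) then κ else 0)) :=
            Finset.sum_le_sum hterm
        _ = q l * ((∑ l' ∈ s, q l') * (3 * ε₁)) +
            q l * ∑ l' ∈ s, (if l' ∈ Finset.Ico (l - D) (l + D) then κ else 0) := by
            rw [Finset.sum_add_distrib, ← Finset.mul_sum, ← Finset.mul_sum, ← Finset.sum_mul]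
        _ ≤ q l * (3 * ε₁) + q l * (2 * D * κ) := by
            rw [hs, one_mul]
            have hcard : ∑ l' ∈ s, (if l' ∈ Finset.Ico (l - D) (l + D) then κ else 0) ≤
                2 * D * κ := by
              rw [← Finset.sum_filter, Finset.sum_const, nsmul_eq_mul]
              apply mul_le_mul_of_nonneg_right _ hκ0'
              have : (s.filter fun l' => l' ∈ Finset.Ico (l - D) (l + D)).card ≤ 2 * D := by
                calc (s.filter fun l' => l' ∈ Finset.Ico (l - D) (l + D)).card
                    ≤ (Finset.Ico (l - D) (l + D)).card := by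
                      apply Finset.card_le_card
                      intro a ha
                      exact (Finset.mem_filter.1 ha).2
                  _ ≤ 2 * D := by rw [Nat.card_Ico]; omega
              exact_mod_cast this
            have := mul_le_mul_of_nonneg_left hcard (hq l hl)
            linarith
        _ = q l * (2 * D * κ + 3 * ε₁) := by ring
    calc ∑ l ∈ s, ∑ l' ∈ s, q l * q l' * ∫ z, u l z * u l' z ∂P
        ≤ ∑ l ∈ s, q l * (2 * D * κ + 3 * ε₁) := Finset.sum_le_sum hrow
      _ = 2 * D * κ + 3 * ε₁ := by rw [← Finset.sum_mul, hs, one_mul]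
  calc ∫ z, |∑ l ∈ s, q l * ind (G l) z - c| ∂P = ∫ z, |h z| ∂P := by
        simp_rw [hhe]
    _ ≤ ∫ z, (h z ^ 2 * (1 / (2 * t)) + t / 2) ∂P := by
        refine integral_mono hhi.abs ((hsqi.mul_const _).add (integrable_const _)) fun z => ?_
        have h3 : 0 ≤ (|h z| - t) ^ 2 := sq_nonneg _
        have h4 : |h z| ^ 2 = h z ^ 2 := sq_abs _
        have h5 : 2 * |h z| * t ≤ h z ^ 2 + t ^ 2 := by nlinarith
        have h6 : |h z| ≤ (h z ^ 2 + t ^ 2) / (2 * t) := by
          rw [le_div_iff₀ (by positivity)]; linarith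
        calc |h z| ≤ (h z ^ 2 + t ^ 2) / (2 * t) := h6
          _ = h z ^ 2 * (1 / (2 * t)) + t / 2 := by field_simp
    _ = (∫ z, h z ^ 2 ∂P) * (1 / (2 * t)) + t / 2 := by
        rw [integral_add (hsqi.mul_const _) (integrable_const _), integral_mul_const]
        simp
    _ ≤ t ^ 2 * (1 / (2 * t)) + t / 2 := by
        have := hsqle.trans hbound
        have h7 : 0 ≤ 1 / (2 * t) := by positivity
        nlinarith
    _ = t := by field_simp; ring

end

end Pool.Agent.Lib.MP_7561b1_an
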