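import Pool.Agent.Lib.MP_7561b1_an.Labels
import Pool.Agent.Lib.MP_7561b1_an.Average

/-!
# Density of wild coboundaries
-/

open MeasureTheory Set Filter
open scoped Topology ENNReal symmDiff

namespace Pool.Agent.Lib.MP_7561b1_an

section aux

variable {X : Type*} [MeasurableSpace X] {μ : Measure X} [IsProbabilityMeasure μ]

theorem sum_measureReal_fiber {lab : X → ℕ} (hlab : Measurable lab) {J : ℕ} (hJ : ∀ x, lab x < J)
    {S : Set X} (hS : MeasurableSet S) :
    ∑ j ∈ Finset.range J, μ.real (lab ⁻¹' {j} ∩ S) = μ.real S := by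
  have h1 : S = ⋃ j ∈ Finset.range J, (lab ⁻¹' {j} ∩ S) := by
    ext x
    simp only [mem_iUnion, Finset.mem_range, mem_inter_iff, mem_preimage, mem_singleton_iff,
      exists_prop]
    constructor
    · intro hx; exact ⟨lab x, hJ x, rfl, hx⟩
    · rintro ⟨_, _, _, hx⟩; exact hx
  conv_rhs => rw [h1]
  rw [measureReal_biUnion_finset]
  · intro i _ j _ hij
    refine Set.disjoint_left.2 fun x hx hx' => hij ?_
    exact hx.1.symm.trans hx'.1
  · intro j _
    exact (hlab (measurableSet_singleton j)).inter hS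

omit [IsProbabilityMeasure μ] in
theorem label_iterate {T : X → X} (hT : MeasurePreserving T μ μ) {lab : X → ℕ} {B : Set X}
    (hB : MeasurableSet B) {δ : ℝ} (hBδ : μ.real B ≤ δ) (h : ∀ x ∉ B, lab (T x) = lab x)
    (l : ℕ) : ∃ B' : Set X, μ.real B' ≤ l * δ ∧ ∀ x ∉ B', lab (T^[l] x) = lab x := by
  induction l with
  | zero => exact ⟨∅, by simp, fun x _ => rfl⟩
  | succ l ih =>
    obtain ⟨B', hB', hB''⟩ := ih
    refine ⟨B' ∪ T^[l] ⁻¹' B, ?_, ?_⟩
    · calc μ.real (B' ∪ T^[l] ⁻¹' B) ≤ μ.real B' + μ.real (T^[l] ⁻¹' B) :=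
            measureReal_union_le _ _
        _ = μ.real B' + μ.real B := by
            rw [(hT.iterate l).measureReal_preimage hB.nullMeasurableSet]
        _ ≤ l * δ + δ := by linarith
        _ = ((l + 1 : ℕ) : ℝ) * δ := by push_cast; ring
    · intro x hx
      simp only [mem_union, mem_preimage, not_or] at hx
      rw [Function.iterate_succ_apply', h _ hx.2, hB'' x hx.1]

end aux

variable {X Y : Type*} [MeasurableSpace X] [StandardBorelSpace X] [MeasurableSpace Y]
  {μ : Measure X} {ν : Measure Y}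
  [IsProbabilityMeasure μ] [NullSingletonClass μ] [IsProbabilityMeasure ν]
  {T : X ≃ᵐ X} {R : Y ≃ᵐ Y}

/-- The cocycle `x ↦ R^{lab(x)}`. -/
def powCocycle (μ : Measure X) (hR : MeasurePreserving R ν ν) (lab : X → ℕ)
    (hlab : Measurable lab) : Cocycle μ ν :=
  Cocycle.ofNat (fun n => Cocycle.const μ (iter R n) (iter_preserves R hR n)) lab hlab

omit [StandardBorelSpace X] [IsProbabilityMeasure μ] [NullSingletonClass μ]
  [IsProbabilityMeasure ν] in
theorem powCocycle_aut (hR : MeasurePreserving R ν ν) (lab : X → ℕ)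
    (hlab : Measurable lab) (x : X) : (powCocycle μ hR lab hlab).aut x = iter R (lab x) := rfl

omit [StandardBorelSpace X] [NullSingletonClass μ] in
/-- The second moment estimate along the orbit of `R`. -/
theorem orbit_second_moment (hR : MeasurePreserving R ν ν) {Q : Set Y} (hQ : MeasurableSet Q)
    {D : ℕ} {t : ℝ} (ht : 0 < t)
    (hD : ∀ d ≥ D, |ν.real (Q ∩ R^[d] ⁻¹' Q) - ν.real Q ^ 2| ≤ t ^ 2 / 6)
    {lab : X → ℕ} (hlab : Measurable lab) {J : ℕ} (hJ : ∀ x, lab x < J)
    (hκ : ∀ j, μ.real (lab ⁻¹' {j}) ≤ t ^ 2 / (4 * (D + 1))) :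
    ∫ y, |∑ j ∈ Finset.range J, μ.real (lab ⁻¹' {j}) * ind (R^[j] ⁻¹' Q) y - ν.real Q| ∂ν
      ≤ t := by
  have hRm : ∀ n, Measurable (R^[n]) := fun n => hR.measurable.iterate n
  refine second_moment ν (Finset.range J) (fun j => μ.real (lab ⁻¹' {j}))
    (fun _ _ => measureReal_nonneg) ?_ (t ^ 2 / (4 * (D + 1))) (fun j _ => hκ j)
    (fun j => R^[j] ⁻¹' Q) (fun j => hRm j hQ) (ν.real Q) measureReal_nonneg measureReal_le_one
    (t ^ 2 / 6) (by positivity) D ?_ ?_ t ht ?_
  · have := sum_measureReal_fiber (μ := μ) hlab hJ MeasurableSet.univ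
    simpa using this
  · intro j _
    rw [(hR.iterate j).measureReal_preimage hQ.nullMeasurableSet]
    simp only [sub_self, abs_zero]
    positivity
  · intro l _ l' _ hll
    have he : R^[l] ⁻¹' Q ∩ R^[l'] ⁻¹' Q = R^[l] ⁻¹' (Q ∩ R^[l' - l] ⁻¹' Q) := by
      ext y
      have h1 : l' = (l' - l) + l := by omega
      simp only [mem_inter_iff, mem_preimage]
      rw [← Function.iterate_add_apply, ← h1]
    rw [he, (hR.iterate l).measureReal_preimage (hQ.inter (hRm _ hQ)).nullMeasurableSet]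
    exact hD _ (by omega)
  · have h1 : 2 * (D:ℝ) * (t ^ 2 / (4 * (D + 1))) ≤ t ^ 2 / 2 := by
      have h2 : 2 * (D:ℝ) * (t ^ 2 / (4 * (D + 1))) = t ^ 2 / 2 * (D / (D + 1)) := by
        field_simp
        ring
      rw [h2]
      have h3 : (D:ℝ) / (D + 1) ≤ 1 := by
        rw [div_le_one (by positivity)]; linarith
      have h4 : 0 ≤ t ^ 2 / 2 := by positivity
      nlinarith
    linarith

omit [StandardBorelSpace X] [NullSingletonClass μ] in
theorem measureReal_label_preimage {Q : Set Y} {lab : X → ℕ} (hlab : Measurable lab) {J : ℕ} (hJ : ∀ x, lab x < J)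
    (y : Y) : μ.real {x | R^[lab x] y ∈ Q} =
      ∑ j ∈ Finset.range J, μ.real (lab ⁻¹' {j}) * ind (R^[j] ⁻¹' Q) y := by
  classical
  have hm : MeasurableSet {x | R^[lab x] y ∈ Q} := by
    have : {x | R^[lab x] y ∈ Q} = lab ⁻¹' {j | R^[j] y ∈ Q} := rfl
    rw [this]
    exact hlab (MeasurableSet.of_discrete)
  rw [← sum_measureReal_fiber hlab hJ hm]
  refine Finset.sum_congr rfl fun j _ => ?_
  by_cases hj : R^[j] y ∈ Q
  · have h1 : lab ⁻¹' {j} ∩ {x | R^[lab x] y ∈ Q} = lab ⁻¹' {j} := by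
      ext x
      simp only [mem_inter_iff, mem_preimage, mem_singleton_iff, mem_ofPred_eq, and_iff_left_iff_imp]
      intro hx; rw [hx]; exact hj
    have h2 : ind (R^[j] ⁻¹' Q) y = 1 := by
      rw [ind, Set.indicator_of_mem]; exact hj
    rw [h1, h2, mul_one]
  · have h1 : lab ⁻¹' {j} ∩ {x | R^[lab x] y ∈ Q} = ∅ := by
      ext x
      simp only [mem_inter_iff, mem_preimage, mem_singleton_iff, mem_ofPred_eq,
        mem_empty_iff_false, iff_false, not_and]
      intro hx; rw [hx]; exact hj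
    have h2 : ind (R^[j] ⁻¹' Q) y = 0 := by
      rw [ind, Set.indicator_of_notMem]; exact hj
    rw [h1, h2, mul_zero, measureReal_empty]


omit [StandardBorelSpace X] [NullSingletonClass μ] in
/-- The straightened estimate for one set `fib p Q`. -/
theorem wild_fib (hT : MeasurePreserving T μ μ)
    {ι : Type} [Fintype ι] {p : X → ι} (hp : ∀ a, MeasurableSet (p ⁻¹' {a}))
    {Q : ι → Set Y} (hQ : ∀ a, MeasurableSet (Q a)) {L : ℕ} (hL : 0 < L) {t₁ : ℝ}
    (hLt : ∀ a, ∫ x, |∑ l ∈ Finset.range L, (1 / (L:ℝ)) * ind (T^[l] ⁻¹' (p ⁻¹' {a})) x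
      - μ.real (p ⁻¹' {a})| ∂μ ≤ t₁)
    {δ : ℝ} (hδ0 : 0 ≤ δ) {lab : X → ℕ} (hlab : Measurable lab) {J : ℕ} (hJ : ∀ x, lab x < J)
    {B : Set X} (hB : MeasurableSet B) (hBδ : μ.real B ≤ δ) (hlabT : ∀ x ∉ B, lab (T x) = lab x)
    {t : ℝ}
    (hR2 : ∀ a, ∫ y, |∑ j ∈ Finset.range J, μ.real (lab ⁻¹' {j}) * ind (R^[j] ⁻¹' (Q a)) y
      - ν.real (Q a)| ∂ν ≤ t) :
    ∫ y, |μ.real {x | R^[lab x] y ∈ Q (p x)} - (μ.prod ν).real (fib p Q)| ∂ν ≤
      L * δ + Fintype.card ι * t₁ + t := by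
  classical
  have hRm : ∀ n, Measurable (R^[n]) := fun n => R.measurable.iterate n
  have hTm : ∀ n, Measurable (T^[n]) := fun n => T.measurable.iterate n
  have hLp : (0:ℝ) < L := by exact_mod_cast hL
  -- measurability of the sets `w y a`
  have hw : ∀ y a, MeasurableSet {x | R^[lab x] y ∈ Q a} := by
    intro y a
    have : {x | R^[lab x] y ∈ Q a} = lab ⁻¹' {j | R^[j] y ∈ Q a} := rfl
    rw [this]
    exact hlab (MeasurableSet.of_discrete)
  have hwp : ∀ y, MeasurableSet {x | R^[lab x] y ∈ Q (p x)} := by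
    intro y
    have : {x | R^[lab x] y ∈ Q (p x)} = ⋃ a, (p ⁻¹' {a} ∩ {x | R^[lab x] y ∈ Q a}) := by
      ext x; simp
    rw [this]
    exact MeasurableSet.iUnion fun a => (hp a).inter (hw y a)
  -- step 1
  have step1 : ∀ y, ∀ l, l < L → |μ.real {x | R^[lab x] y ∈ Q (p x)} -
      μ.real {x | R^[lab x] y ∈ Q (p (T^[l] x))}| ≤ L * δ := by
    intro y l hl
    obtain ⟨B', hB', hB''⟩ := label_iterate hT hB hBδ hlabT l
    have h1 : μ.real {x | R^[lab x] y ∈ Q (p x)} =
        μ.real (T^[l] ⁻¹' {x | R^[lab x] y ∈ Q (p x)}) :=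
      ((hT.iterate l).measureReal_preimage (hwp y).nullMeasurableSet).symm
    rw [h1]
    refine (abs_measureReal_sub_le μ _ _).trans ?_
    calc _ ≤ μ.real B' := by
          refine measureReal_mono ?_ (measure_ne_top _ _)
          intro x hx
          by_contra hxB
          have h2 := hB'' x hxB
          rcases hx with ⟨ha, hb⟩ | ⟨ha, hb⟩
          · apply hb
            have ha' : R^[lab (T^[l] x)] y ∈ Q (p (T^[l] x)) := ha
            rw [h2] at ha'
            exact ha'
          · apply hb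
            have ha' : R^[lab x] y ∈ Q (p (T^[l] x)) := ha
            rw [← h2] at ha'
            exact ha'
      _ ≤ l * δ := hB'
      _ ≤ L * δ := by
          have : (l:ℝ) ≤ L := by exact_mod_cast hl.le
          gcongr
  have step1' : ∀ y, |μ.real {x | R^[lab x] y ∈ Q (p x)} - ∑ l ∈ Finset.range L, (1 / (L:ℝ)) *
      μ.real {x | R^[lab x] y ∈ Q (p (T^[l] x))}| ≤ L * δ := by
    intro y
    have h1 : μ.real {x | R^[lab x] y ∈ Q (p x)} = ∑ l ∈ Finset.range L, (1 / (L:ℝ)) *
        μ.real {x | R^[lab x] y ∈ Q (p x)} := by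
      rw [Finset.sum_const, Finset.card_range, nsmul_eq_mul]
      field_simp
    rw [h1, ← Finset.sum_sub_distrib]
    refine (Finset.abs_sum_le_sum_abs _ _).trans ?_
    calc ∑ l ∈ Finset.range L, |1 / (L:ℝ) * μ.real {x | R^[lab x] y ∈ Q (p x)} -
          1 / (L:ℝ) * μ.real {x | R^[lab x] y ∈ Q (p (T^[l] x))}|
        ≤ ∑ l ∈ Finset.range L, 1 / (L:ℝ) * (L * δ) := by
          refine Finset.sum_le_sum fun l hl => ?_
          rw [← mul_sub, abs_mul, abs_of_pos (by positivity : (0:ℝ) < 1 / L)]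
          exact mul_le_mul_of_nonneg_left (step1 y l (Finset.mem_range.1 hl)) (by positivity)
      _ = L * δ := by
          rw [Finset.sum_const, Finset.card_range, nsmul_eq_mul]
          field_simp
  -- step 2
  have step2 : ∀ y, |∑ l ∈ Finset.range L, (1 / (L:ℝ)) *
      μ.real {x | R^[lab x] y ∈ Q (p (T^[l] x))} -
      ∑ a, μ.real (p ⁻¹' {a}) * μ.real {x | R^[lab x] y ∈ Q a}| ≤ Fintype.card ι * t₁ := by
    intro y
    have h1 := avg_label μ L (fun l x => p (T^[l] x)) (fun l a => hTm l (hp a))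
      (fun a => {x | R^[lab x] y ∈ Q a}) (fun a => hw y a) (fun a => μ.real (p ⁻¹' {a}))
    refine h1.trans ?_
    calc _ ≤ ∑ _a : ι, t₁ := Finset.sum_le_sum fun a _ => hLt a
      _ = Fintype.card ι * t₁ := by rw [Finset.sum_const, Finset.card_univ, nsmul_eq_mul]
  -- step 3
  have hfib : (μ.prod ν).real (fib p Q) = ∑ a, μ.real (p ⁻¹' {a}) * ν.real (Q a) := by
    have : fib p Q = ⋃ a, (p ⁻¹' {a}) ×ˢ Q a := by
      ext z; simp [mem_fib]
    rw [this, measureReal_iUnion_fintype]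
    · refine Finset.sum_congr rfl fun a _ => ?_
      rw [measureReal_prod_prod]
    · intro a b hab
      refine Set.disjoint_left.2 fun z hz hz' => hab ?_
      exact hz.1.symm.trans hz'.1
    · intro a; exact (hp a).prod (hQ a)
  have hsum1 : ∑ a, μ.real (p ⁻¹' {a}) = 1 := by
    have : (⋃ a, p ⁻¹' {a}) = univ := by ext x; simp
    rw [← measureReal_iUnion_fintype, this]
    · simp
    · intro a b hab
      refine Set.disjoint_left.2 fun z hz hz' => hab ?_
      exact hz.symm.trans hz'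
    · intro a; exact hp a
  have hIa : ∀ a, Integrable (fun y => |∑ j ∈ Finset.range J, μ.real (lab ⁻¹' {j}) *
      ind (R^[j] ⁻¹' (Q a)) y - ν.real (Q a)|) ν := by
    intro a
    exact ((integrable_finsetSum _ fun j _ =>
      (integrable_ind ν (hRm j (hQ a))).const_mul _).sub (integrable_const _)).abs
  have hI : Integrable (fun y => L * δ + Fintype.card ι * t₁ + ∑ a, μ.real (p ⁻¹' {a}) *
      |∑ j ∈ Finset.range J, μ.real (lab ⁻¹' {j}) * ind (R^[j] ⁻¹' (Q a)) y
      - ν.real (Q a)|) ν :=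
    (integrable_const _).add (integrable_finsetSum _ fun a _ => (hIa a).const_mul _)
  calc ∫ y, |μ.real {x | R^[lab x] y ∈ Q (p x)} - (μ.prod ν).real (fib p Q)| ∂ν
      ≤ ∫ y, (L * δ + Fintype.card ι * t₁ + ∑ a, μ.real (p ⁻¹' {a}) *
        |∑ j ∈ Finset.range J, μ.real (lab ⁻¹' {j}) * ind (R^[j] ⁻¹' (Q a)) y
        - ν.real (Q a)|) ∂ν := by
        refine integral_mono_of_nonneg (Eventually.of_forall fun y => abs_nonneg _) hI
          (Eventually.of_forall fun y => ?_)
        have h1 := step1' y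
        have h2 := step2 y
        have h3 : |∑ a, μ.real (p ⁻¹' {a}) * μ.real {x | R^[lab x] y ∈ Q a} -
            (μ.prod ν).real (fib p Q)| ≤ ∑ a, μ.real (p ⁻¹' {a}) *
            |∑ j ∈ Finset.range J, μ.real (lab ⁻¹' {j}) * ind (R^[j] ⁻¹' (Q a)) y
            - ν.real (Q a)| := by
          rw [hfib, ← Finset.sum_sub_distrib]
          refine (Finset.abs_sum_le_sum_abs _ _).trans (Finset.sum_le_sum fun a _ => ?_)
          rw [← mul_sub, abs_mul, abs_of_nonneg measureReal_nonneg,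
            measureReal_label_preimage hlab hJ]
        have h4 := abs_sub_le (μ.real {x | R^[lab x] y ∈ Q (p x)})
          (∑ l ∈ Finset.range L, (1 / (L:ℝ)) * μ.real {x | R^[lab x] y ∈ Q (p (T^[l] x))})
          ((μ.prod ν).real (fib p Q))
        have h5 := abs_sub_le
          (∑ l ∈ Finset.range L, (1 / (L:ℝ)) * μ.real {x | R^[lab x] y ∈ Q (p (T^[l] x))})
          (∑ a, μ.real (p ⁻¹' {a}) * μ.real {x | R^[lab x] y ∈ Q a})
          ((μ.prod ν).real (fib p Q))
        show |_| ≤ _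
        linarith
    _ = L * δ + Fintype.card ι * t₁ + ∑ a, μ.real (p ⁻¹' {a}) *
        ∫ y, |∑ j ∈ Finset.range J, μ.real (lab ⁻¹' {j}) * ind (R^[j] ⁻¹' (Q a)) y
        - ν.real (Q a)| ∂ν := by
        rw [integral_add (integrable_const _)
          (integrable_finsetSum _ fun a _ => (hIa a).const_mul _),
          integral_finsetSum _ fun a _ => (hIa a).const_mul _]
        congr 1
        · simp
        · refine Finset.sum_congr rfl fun a _ => ?_
          rw [integral_const_mul]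
    _ ≤ L * δ + Fintype.card ι * t₁ + ∑ a, μ.real (p ⁻¹' {a}) * t := by
        gcongr with a _
        exact hR2 a
    _ = L * δ + Fintype.card ι * t₁ + t := by
        rw [← Finset.sum_mul, hsum1, one_mul]

end Pool.Agent.Lib.MP_7561b1_an
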