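import Pool.Agent.Lib.MP_7561b1_an.Wild

/-!
# Density of wild coboundaries, II
-/

open MeasureTheory Set Filter
open scoped Topology ENNReal symmDiff

namespace Pool.Agent.Lib.MP_7561b1_an

variable {X Y : Type*} [MeasurableSpace X] [StandardBorelSpace X] [MeasurableSpace Y]
  {μ : Measure X} {ν : Measure Y}
  [IsProbabilityMeasure μ] [NullSingletonClass μ] [IsProbabilityMeasure ν]
  {T : X ≃ᵐ X} {R : Y ≃ᵐ Y}

/-- Near-invariant labels which make `(x,y) ↦ (x, R^{lab(x)}y)` equidistribute the horizontal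
sections of finitely many given sets. -/
theorem exists_wild_label (hmix : IsMultiplyMixing T μ) (hT : MeasurePreserving T μ μ)
    (hR : MeasurePreserving R ν ν)
    (hR2 : ∀ B : Set Y, MeasurableSet B →
      Tendsto (fun n => ν.real (B ∩ R^[n] ⁻¹' B)) atTop (𝓝 (ν.real B * ν.real B)))
    {κ : Type} [Fintype κ] (E : κ → Set (X × Y)) (hE : ∀ i, MeasurableSet (E i))
    {δ ε : ℝ} (hδ : 0 < δ) (hε : 0 < ε) :
    ∃ lab : X → ℕ, Measurable lab ∧
      (∃ B, MeasurableSet B ∧ μ.real B ≤ δ ∧ ∀ x ∉ B, lab (T x) = lab x) ∧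
      ∀ i, ∫ y, |μ.real {x | (x, R^[lab x] y) ∈ E i} - (μ.prod ν).real (E i)| ∂ν ≤ ε := by
  classical
  obtain ⟨ι, hι, p, Q, hp, hQ, hlt⟩ :=
    exists_fib_approx (μ.prod ν) E hE (show 0 < ε / 8 by positivity)
  -- choice of `L`
  set t₁ : ℝ := ε / (8 * (Fintype.card ι + 1)) with ht₁
  have ht₁0 : 0 < t₁ := by positivity
  have hLex : ∀ᶠ L : ℕ in atTop, ∀ a : ι,
      ∫ x, |∑ l ∈ Finset.range L, (1 / (L:ℝ)) * ind (T^[l] ⁻¹' (p ⁻¹' {a})) x
      - μ.real (p ⁻¹' {a})| ∂μ ≤ t₁ := by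
    rw [Filter.eventually_all]
    intro a
    have h1 := avg_mixing hT hmix (k := 0) (fun _ => p ⁻¹' {a}) (fun _ => hp a) ht₁0
    filter_upwards [h1] with L hL
    obtain ⟨N, hN⟩ := hL.exists
    have h2 := hN (fun _ => 0) ⟨rfl, fun i => i.elim0⟩
    have h3 : ∀ l, (⋂ _ : Fin (0 + 1), T^[0 + l] ⁻¹' (p ⁻¹' {a})) = T^[l] ⁻¹' (p ⁻¹' {a}) := by
      intro l; ext x; simp
    simp only [h3] at h2
    simpa using h2
  obtain ⟨L, hLt, hL⟩ := (hLex.and (eventually_gt_atTop 0)).exists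
  have hLp : (0:ℝ) < L := by exact_mod_cast hL
  -- choice of `D`
  set t : ℝ := ε / 4 with ht
  have ht0 : 0 < t := by positivity
  have hDex : ∀ᶠ D : ℕ in atTop, ∀ i : κ, ∀ a : ι,
      |ν.real (Q i a ∩ R^[D] ⁻¹' Q i a) - ν.real (Q i a) ^ 2| ≤ t ^ 2 / 6 := by
    rw [Filter.eventually_all]
    intro i
    rw [Filter.eventually_all]
    intro a
    have h1 := hR2 (Q i a) (hQ i a)
    rw [← sq] at h1
    have h2 := h1.eventually (Metric.closedBall_mem_nhds _ (show 0 < t ^ 2 / 6 by positivity))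
    filter_upwards [h2] with n hn
    simpa [Real.dist_eq] using hn
  obtain ⟨D, hD⟩ := eventually_atTop.1 hDex
  -- the label
  set δ' : ℝ := min δ (ε / (8 * L)) with hδ'
  have hδ'0 : 0 < δ' := lt_min hδ (by positivity)
  obtain ⟨J, lab, hlab, hJ, ⟨B, hB, hBδ, hlabT⟩, hκ⟩ :=
    exists_lab hmix hT hδ'0 (show 0 < t ^ 2 / (4 * (D + 1)) by positivity)
  refine ⟨lab, hlab, ⟨B, hB, hBδ.trans (min_le_left _ _), hlabT⟩, fun i => ?_⟩
  have hmain := wild_fib (ν := ν) (R := R) hT hp (hQ i) hL hLt hδ'0.le hlab hJ hB hBδ hlabT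
    (t := t) (fun a => orbit_second_moment hR (hQ i a) ht0 (fun d hd => hD d hd i a) hlab hJ hκ)
  -- comparison with `E i`
  set Ψ := fmap (powCocycle μ hR lab hlab) with hΨ
  have hΨp : MeasurePreserving Ψ (μ.prod ν) (μ.prod ν) := fmap_preserving _
  have hΨa : ∀ x y, Ψ (x, y) = (x, R^[lab x] y) := by
    intro x y
    rw [hΨ]
    simp only [fmap, powCocycle_aut, iter_apply]
  have hF : MeasurableSet (fib p (Q i)) := measurableSet_fib hp (hQ i)
  have hDm : MeasurableSet (Ψ ⁻¹' (E i ∆ fib p (Q i))) :=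
    hΨp.measurable ((hE i).symmDiff hF)
  have hcomp : ∀ y, |μ.real {x | (x, R^[lab x] y) ∈ E i} -
      μ.real {x | R^[lab x] y ∈ Q i (p x)}| ≤
      μ.real {x | (x, y) ∈ Ψ ⁻¹' (E i ∆ fib p (Q i))} := by
    intro y
    refine (abs_measureReal_sub_le μ _ _).trans (le_of_eq ?_)
    congr 1
    ext x
    show _ ↔ Ψ (x, y) ∈ E i ∆ fib p (Q i)
    rw [hΨa]
    rfl
  have h1 : ∫ y, μ.real {x | (x, y) ∈ Ψ ⁻¹' (E i ∆ fib p (Q i))} ∂ν < ε / 8 := by
    rw [integral_section μ ν hDm, hΨp.measureReal_preimage ((hE i).symmDiff hF).nullMeasurableSet]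
    exact hlt i
  have h2 : |(μ.prod ν).real (fib p (Q i)) - (μ.prod ν).real (E i)| ≤ ε / 8 := by
    rw [abs_sub_comm]
    exact (abs_measureReal_sub_le _ _ _).trans (hlt i).le
  have hI2 : Integrable (fun y => |μ.real {x | R^[lab x] y ∈ Q i (p x)} -
      (μ.prod ν).real (fib p (Q i))|) ν := by
    have hm : MeasurableSet (Ψ ⁻¹' fib p (Q i)) := hΨp.measurable hF
    have e5 : ∀ y, {x | R^[lab x] y ∈ Q i (p x)} = {x | (x, y) ∈ Ψ ⁻¹' fib p (Q i)} := by
      intro y
      ext x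
      show _ ↔ Ψ (x, y) ∈ fib p (Q i)
      rw [hΨa]
      rfl
    simp only [e5]
    exact ((integrable_section μ ν hm).sub (integrable_const _)).abs
  have hI1 := integrable_section μ ν hDm
  have hI12 : Integrable (fun y => μ.real {x | (x, y) ∈ Ψ ⁻¹' (E i ∆ fib p (Q i))} +
      |μ.real {x | R^[lab x] y ∈ Q i (p x)} - (μ.prod ν).real (fib p (Q i))|) ν := hI1.add hI2
  calc ∫ y, |μ.real {x | (x, R^[lab x] y) ∈ E i} - (μ.prod ν).real (E i)| ∂ν
      ≤ ∫ y, (μ.real {x | (x, y) ∈ Ψ ⁻¹' (E i ∆ fib p (Q i))} +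
        |μ.real {x | R^[lab x] y ∈ Q i (p x)} - (μ.prod ν).real (fib p (Q i))| + ε / 8) ∂ν := by
        refine integral_mono_of_nonneg (Eventually.of_forall fun y => abs_nonneg _)
          (hI12.add (integrable_const _)) (Eventually.of_forall fun y => ?_)
        have h4 := abs_sub_le (μ.real {x | (x, R^[lab x] y) ∈ E i})
          (μ.real {x | R^[lab x] y ∈ Q i (p x)}) ((μ.prod ν).real (E i))
        have h5 := abs_sub_le (μ.real {x | R^[lab x] y ∈ Q i (p x)})
          ((μ.prod ν).real (fib p (Q i))) ((μ.prod ν).real (E i))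
        have h6 := hcomp y
        show |_| ≤ _
        linarith
    _ = ∫ y, μ.real {x | (x, y) ∈ Ψ ⁻¹' (E i ∆ fib p (Q i))} ∂ν +
        ∫ y, |μ.real {x | R^[lab x] y ∈ Q i (p x)} - (μ.prod ν).real (fib p (Q i))| ∂ν +
        ε / 8 := by
        rw [integral_add hI12 (integrable_const _), integral_add hI1 hI2]
        simp
    _ ≤ ε / 8 + (L * δ' + Fintype.card ι * t₁ + t) + ε / 8 := by
        gcongr
    _ ≤ ε := by
        have h7 : L * δ' ≤ ε / 8 := by
          calc L * δ' ≤ L * (ε / (8 * L)) := by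
                gcongr
                exact min_le_right _ _
            _ = ε / 8 := by field_simp
        have h8 : Fintype.card ι * t₁ ≤ ε / 8 := by
          have h9 : (Fintype.card ι : ℝ) * t₁ = ε / 8 * (Fintype.card ι / (Fintype.card ι + 1)) := by
            rw [ht₁]; field_simp
          rw [h9]
          have h10 : (Fintype.card ι : ℝ) / (Fintype.card ι + 1) ≤ 1 := by
            rw [div_le_one (by positivity)]; linarith
          have : 0 ≤ ε / 8 := by positivity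
          nlinarith
        rw [ht]
        linarith

/-- The coboundary `x ↦ γ(Tx)⁻¹γ(x)`. -/
def cobd (T : X ≃ᵐ X) (γ : Cocycle μ ν) : Cocycle μ ν :=
  (γ.comp T T.measurable).inv.mul γ

omit [StandardBorelSpace X] [IsProbabilityMeasure μ] [NullSingletonClass μ]
  [IsProbabilityMeasure ν] in
theorem cobd_apply (T : X ≃ᵐ X) (γ : Cocycle μ ν) (x : X) (y : Y) :
    (cobd T γ).aut x y = (γ.aut (T x)).symm (γ.aut x y) := rfl

/-- The products `α(T⁻¹x)⁻¹ ⋯` used to build a transfer function. -/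
def transfer (T : X ≃ᵐ X) (α : Cocycle μ ν) : ℕ → Cocycle μ ν
  | 0 => Cocycle.const μ (MeasurableEquiv.refl Y) (MeasurePreserving.id ν)
  | n + 1 => ((transfer T α n).comp T.symm T.symm.measurable).mul
      (α.comp T.symm T.symm.measurable).inv

omit [StandardBorelSpace X] [IsProbabilityMeasure μ] [NullSingletonClass μ]
  [IsProbabilityMeasure ν] in
theorem transfer_succ_apply (T : X ≃ᵐ X) (α : Cocycle μ ν) (n : ℕ) (x : X) (y : Y) :
    (transfer T α (n + 1)).aut (T x) y = (transfer T α n).aut x ((α.aut x).symm y) := by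
  show ((transfer T α n).aut (T.symm (T x))) ((α.aut (T.symm (T x))).symm y) = _
  rw [MeasurableEquiv.symm_apply_apply]

/-- **Density of wild coboundaries.** -/
theorem exists_wild_cobd (hmix : IsMultiplyMixing T μ) (hT : MeasurePreserving T μ μ)
    (hR : MeasurePreserving R ν ν)
    (hR2 : ∀ B : Set Y, MeasurableSet B →
      Tendsto (fun n => ν.real (B ∩ R^[n] ⁻¹' B)) atTop (𝓝 (ν.real B * ν.real B)))
    (α : Cocycle μ ν)
    {κ : Type} [Fintype κ] (A : κ → Set (X × Y)) (hA : ∀ i, MeasurableSet (A i))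
    {δ ε : ℝ} (hδ : 0 < δ) (hε : 0 < ε) :
    ∃ γ : Cocycle μ ν, (∃ E, μ.real E ≤ δ ∧ ∀ x ∉ E, (cobd T γ).aut x = α.aut x) ∧
      ∀ i, ∫ y, |μ.real {x | (x, (γ.aut x).symm y) ∈ A i} - (μ.prod ν).real (A i)| ∂ν ≤ ε := by
  obtain ⟨τ, E₁, hτ, hE₁, hE₁δ, hτE⟩ := exists_clock hmix hT (half_pos hδ)
  set γ₀ : Cocycle μ ν := Cocycle.ofNat (transfer T α) τ hτ with hγ₀
  set Φ := fmap γ₀.inv with hΦ
  have hΦp : MeasurePreserving Φ (μ.prod ν) (μ.prod ν) := fmap_preserving _
  obtain ⟨lab, hlab, ⟨B, hB, hBδ, hlabT⟩, hint⟩ := exists_wild_label hmix hT hR hR2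
    (fun i => Φ ⁻¹' A i) (fun i => hΦp.measurable (hA i)) (half_pos hδ) hε
  set ρ := powCocycle μ hR lab hlab with hρ
  refine ⟨ρ.inv.mul γ₀, ⟨E₁ ∪ B, ?_, ?_⟩, fun i => ?_⟩
  · exact (measureReal_union_le _ _).trans (by linarith)
  · intro x hx
    simp only [mem_union, not_or] at hx
    have h1 := hτE x hx.1
    have h2 := hlabT x hx.2
    ext y
    rw [cobd_apply]
    have e1 : ∀ z w, (ρ.inv.mul γ₀).aut z w = (iter R (lab z)).symm (γ₀.aut z w) :=
      fun z w => rfl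
    rw [MeasurableEquiv.symm_apply_eq, e1, e1, h2]
    congr 1
    have e2 : γ₀.aut (T x) (α.aut x y) = (transfer T α (τ x + 1)).aut (T x) (α.aut x y) := by
      rw [hγ₀]
      show (transfer T α (τ (T x))).aut (T x) (α.aut x y) = _
      rw [h1]
    rw [e2, transfer_succ_apply, MeasurableEquiv.symm_apply_apply]
    rfl
  · have h1 := hint i
    have h2 : (μ.prod ν).real (Φ ⁻¹' A i) = (μ.prod ν).real (A i) :=
      hΦp.measureReal_preimage (hA i).nullMeasurableSet
    simp only [h2] at h1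
    have e4 : ∀ y, {x | (x, ((ρ.inv.mul γ₀).aut x).symm y) ∈ A i} =
        {x | (x, R^[lab x] y) ∈ Φ ⁻¹' A i} := by
      intro y
      ext x
      simp only [mem_ofPred_eq, mem_preimage]
      have e3 : (x, ((ρ.inv.mul γ₀).aut x).symm y) = Φ (x, R^[lab x] y) := by
        rw [hΦ]
        simp only [fmap]
        rw [← iter_apply]
        rfl
      rw [e3]
    simp only [e4]
    exact h1

end Pool.Agent.Lib.MP_7561b1_an
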